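import Pool.Agent.Helper79.Count

set_option autoImplicit false

namespace Helper79

open Finset

/-- Uniqueness from the natural increasing tuples. -/
lemma mv_unique {n : ℕ} {P Q : MvPolynomial (Fin n) ℚ}
    (h : ∀ w : Fin n → ℕ, StrictMono w → MvPolynomial.eval (fun i => (w i : ℚ)) P =
      MvPolynomial.eval (fun i => (w i : ℚ)) Q) : P = Q := by
  refine MvPolynomial.funext_set (fun _ => Set.range (fun m : ℕ => (m : ℚ)))
    (fun _ => Set.infinite_range_of_injective Nat.cast_injective) ?_
  intro x hx
  have hx' : ∀ i, ∃ m : ℕ, (m : ℚ) = x i := fun i => hx i (Set.mem_univ i)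
  choose u hu using hx'
  -- the univariate restriction
  set f : Fin n → Polynomial ℚ := fun i => Polynomial.C (u i : ℚ) +
    Polynomial.C ((i.val : ℕ) : ℚ) * Polynomial.X with hf
  have hev : ∀ (R : MvPolynomial (Fin n) ℚ) (t : ℚ),
      Polynomial.eval t (MvPolynomial.eval₂ Polynomial.C f R) =
        MvPolynomial.eval (fun i => (u i : ℚ) + (i.val : ℚ) * t) R := by
    intro R t
    rw [MvPolynomial.polynomial_eval_eval₂]
    have h1 : (Polynomial.evalRingHom t).comp Polynomial.C = RingHom.id ℚ :=
      RingHom.ext fun x => by simp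
    have h2 : (fun s => Polynomial.eval t (f s)) = fun i => (u i : ℚ) + (i.val : ℚ) * t := by
      funext i
      simp [hf]
    rw [h1, h2]
    rfl
  have hpq : MvPolynomial.eval₂ Polynomial.C f P = MvPolynomial.eval₂ Polynomial.C f Q := by
    rw [← sub_eq_zero]
    refine Polynomial.eq_zero_of_infinite_isRoot _ ?_
    obtain ⟨M, hM⟩ : ∃ M : ℕ, ∀ i, u i < M := by
      refine ⟨(∑ i, u i) + 1, fun i => ?_⟩
      exact Nat.lt_succ_of_le (Finset.single_le_sum (fun _ _ => Nat.zero_le _) (Finset.mem_univ i))
    have hinf : (Set.range (fun m : ℕ => ((M + m : ℕ) : ℚ))).Infinite :=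
      Set.infinite_range_of_injective fun a b hab => by
        have : M + a = M + b := by exact_mod_cast hab
        omega
    refine hinf.mono ?_
    rintro _ ⟨m, rfl⟩
    change Polynomial.eval _ _ = 0
    rw [Polynomial.eval_sub, hev, hev, sub_eq_zero]
    have hmono : StrictMono (fun i : Fin n => u i + i.val * (M + m)) := by
      intro i j hij
      have h1 := hM i
      have h2 : i.val + 1 ≤ j.val := hij
      have h3 : (i.val + 1) * (M + m) ≤ j.val * (M + m) := Nat.mul_le_mul_right _ h2
      have h4 : (i.val + 1) * (M + m) = i.val * (M + m) + (M + m) := by ring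
      change u i + i.val * (M + m) < u j + j.val * (M + m)
      omega
    have := h _ hmono
    push_cast at this ⊢
    exact this
  have h0 := congrArg (Polynomial.eval 0) hpq
  rw [hev, hev] at h0
  simp only [mul_zero, add_zero] at h0
  have hxu : x = fun i => (u i : ℚ) := by funext i; exact (hu i).symm
  rw [hxu]
  exact h0

/-- Shifting all entries. -/
lemma MT_shift (n : ℕ) (k : Fin n → ℤ) (c : ℤ) :
    MonotoneTriangles n (fun i => k i + c) =
      (fun (a : Tri n) => (fun i j => a i j + c : Tri n)) '' MonotoneTriangles n k := by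
  ext a
  constructor
  · rintro ⟨h1, h2, h3⟩
    refine ⟨fun i j => a i j - c, ⟨fun i => ?_, fun i h j => ?_, fun i h j => ?_⟩, ?_⟩
    · intro j j' hj
      have := h1 i hj
      change a i j - c < a i j' - c
      omega
    · have := h2 i h j
      constructor
      · change _ - c ≤ _ - c
        omega
      · change _ - c ≤ _ - c
        omega
    · have := h3 i h j
      change _ - c = _
      rw [this]
      ring
    · funext i j
      change a i j - c + c = a i j
      ring
  · rintro ⟨b, ⟨h1, h2, h3⟩, rfl⟩
    refine ⟨fun i => ?_, fun i h j => ?_, fun i h j => ?_⟩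
    · intro j j' hj
      have := h1 i hj
      change b i j + c < b i j' + c
      omega
    · have := h2 i h j
      constructor
      · change _ + c ≤ _ + c
        omega
      · change _ + c ≤ _ + c
        omega
    · have := h3 i h j
      change _ + c = _
      rw [this]

lemma shift_injective (n : ℕ) (c : ℤ) :
    Function.Injective (fun (a : Tri n) => (fun i j => a i j + c : Tri n)) := by
  intro a b h
  funext i j
  have := congrFun (congrFun h i) j
  simpa using this

lemma MT_shift_ncard (n : ℕ) (k : Fin n → ℤ) (c : ℤ) :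
    (MonotoneTriangles n (fun i => k i + c)).ncard = (MonotoneTriangles n k).ncard := by
  rw [MT_shift, Set.ncard_image_of_injective _ (shift_injective n c)]

/-- The polynomial. -/
noncomputable def alphaP (n : ℕ) : MvPolynomial (Fin n) ℚ := (alW_mvpoly n).choose

lemma alphaP_spec (n : ℕ) (w : Fin n → ℕ) :
    alW (List.ofFn w) = MvPolynomial.eval (fun i => (w i : ℚ)) (alphaP n) :=
  (alW_mvpoly n).choose_spec w

lemma alphaP_nat (n : ℕ) (w : Fin n → ℕ) (hw : StrictMono w) :
    MvPolynomial.eval (fun i => (w i : ℚ)) (alphaP n) =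
      ((MonotoneTriangles n (fun i => (w i : ℤ))).ncard : ℚ) := by
  rw [← alphaP_spec, (MT_count n w hw).2]

lemma alphaP_shift_poly (n : ℕ) :
    MvPolynomial.bind₁ (fun i => MvPolynomial.X i + MvPolynomial.C 1) (alphaP n) = alphaP n := by
  refine mv_unique fun w hw => ?_
  rw [eval_bind, alphaP_nat n w hw]
  have h1 : (fun i => MvPolynomial.eval (fun i => (w i : ℚ))
      (MvPolynomial.X i + MvPolynomial.C 1 : MvPolynomial (Fin n) ℚ)) =
      fun i => ((w i + 1 : ℕ) : ℚ) := by
    funext i
    simp
  have hw' : StrictMono (fun i => w i + 1) := fun i j hij => Nat.succ_lt_succ (hw hij)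
  rw [h1, alphaP_nat n (fun i => w i + 1) hw']
  push_cast
  rw [MT_shift_ncard]

lemma alphaP_shift_one (n : ℕ) (x : Fin n → ℚ) :
    MvPolynomial.eval (fun i => x i + 1) (alphaP n) = MvPolynomial.eval x (alphaP n) := by
  conv_rhs => rw [← alphaP_shift_poly n]
  rw [eval_bind]
  simp

lemma alphaP_shift (n : ℕ) (x : Fin n → ℚ) (c : ℕ) :
    MvPolynomial.eval (fun i => x i + c) (alphaP n) = MvPolynomial.eval x (alphaP n) := by
  induction c with
  | zero => simp
  | succ c ih =>
    rw [← ih, ← alphaP_shift_one n (fun i => x i + c)]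
    push_cast
    simp only [add_assoc]

lemma exists_shift {n : ℕ} (k : Fin n → ℤ) : ∃ (c : ℕ) (w : Fin n → ℕ), ∀ i, (w i : ℤ) = k i + c := by
  refine ⟨∑ i, (k i).natAbs, fun i => (k i + (∑ i, (k i).natAbs : ℕ)).toNat, fun i => ?_⟩
  have h1 : (k i).natAbs ≤ ∑ i, (k i).natAbs :=
    Finset.single_le_sum (f := fun i => (k i).natAbs) (fun _ _ => Nat.zero_le _) (Finset.mem_univ i)
  rw [Int.toNat_of_nonneg]
  omega

lemma MT_finite (n : ℕ) (k : Fin n → ℤ) (hk : StrictMono k) : (MonotoneTriangles n k).Finite := by
  obtain ⟨c, w, hw⟩ := exists_shift k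
  have hwm : StrictMono w := by
    intro i j hij
    have h1 := hk hij
    have h2 := hw i
    have h3 := hw j
    omega
  have h1 := (MT_count n w hwm).1
  have h2 : (fun i => (w i : ℤ)) = fun i => k i + (c : ℤ) := by funext i; exact hw i
  rw [h2, MT_shift] at h1
  exact Set.Finite.of_finite_image h1 (shift_injective n c).injOn

theorem alphaP_isAlpha (n : ℕ) : IsAlpha n (alphaP n) := by
  intro k hk
  obtain ⟨c, w, hw⟩ := exists_shift k
  have hwm : StrictMono w := by
    intro i j hij
    have h1 := hk hij
    have h2 := hw i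
    have h3 := hw j
    omega
  rw [← alphaP_shift n _ c, ← MT_shift_ncard n k c]
  have h2 : (fun i => (w i : ℤ)) = fun i => k i + (c : ℤ) := by funext i; exact hw i
  rw [← h2, ← alphaP_nat n w hwm]
  congr 2
  funext i
  have := hw i
  have h3 : ((w i : ℤ) : ℚ) = ((k i + c : ℤ) : ℚ) := by rw [this]
  push_cast at h3
  exact h3.symm

theorem isAlpha_unique {n : ℕ} {P Q : MvPolynomial (Fin n) ℚ} (hP : IsAlpha n P)
    (hQ : IsAlpha n Q) : P = Q := by
  refine mv_unique fun w hw => ?_
  have hk : StrictMono (fun i => (w i : ℤ)) := fun i j hij => by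
    have := hw hij
    change (w i : ℤ) < w j
    exact_mod_cast this
  have h1 := hP _ hk
  have h2 := hQ _ hk
  push_cast at h1 h2
  rw [h1, h2]

/-- The signed evaluation for `alphaP`. -/
theorem alphaP_signed (n : ℕ) :
    MvPolynomial.eval (fun i : Fin n => (i.val : ℚ) + 1) (alphaP n) =
      (-1) ^ n * MvPolynomial.eval
        (fun i : Fin (2 * n + 1) => if i.val ≤ n then (i.val : ℚ) + 1 else (i.val : ℚ) - n)
        (alphaP (2 * n + 1)) := by
  have h1 := alW_identity n
  -- the small word
  have e1 : (List.range n).map Nat.succ = List.ofFn (fun i : Fin n => i.val + 1) := by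
    apply List.ext_getElem
    · simp
    · intro i h1 h2
      simp
  have e2 : bigW n = List.ofFn (fun i : Fin (2 * n + 1) =>
      if i.val ≤ n then i.val else i.val - (n + 1)) := by
    apply List.ext_getElem
    · rw [bigW_length]; simp
    · intro i h1 h2
      rw [bigW_length] at h1
      rw [List.getElem_ofFn]
      unfold bigW
      by_cases h : i ≤ n
      · rw [List.getElem_append_left (by simp; omega)]
        simp [h]
      · rw [List.getElem_append_right (by simp; omega)]
        simp [h]
  rw [e1, e2, alphaP_spec, alphaP_spec] at h1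
  have e3 : (fun i : Fin n => (((i.val + 1 : ℕ) : ℕ) : ℚ)) = fun i : Fin n => (i.val : ℚ) + 1 := by
    funext i; push_cast; rfl
  rw [e3] at h1
  have e4 : (fun i : Fin (2 * n + 1) =>
      if i.val ≤ n then (i.val : ℚ) + 1 else (i.val : ℚ) - n) = fun i : Fin (2 * n + 1) =>
      ((if i.val ≤ n then i.val else i.val - (n + 1) : ℕ) : ℚ) + 1 := by
    funext i
    by_cases h : i.val ≤ n
    · simp only [h, if_true]
    · simp only [h, if_false]
      rw [Nat.cast_sub (by omega)]
      push_cast
      ring
  have e5 := alphaP_shift_one (2 * n + 1) (fun i : Fin (2 * n + 1) =>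
      ((if i.val ≤ n then i.val else i.val - (n + 1) : ℕ) : ℚ))
  rw [e4, e5, h1, ← mul_assoc, ← pow_add, ← two_mul, pow_mul]
  norm_num

end Helper79
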