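import Mathlib

set_option autoImplicit false

namespace Helper79

open Finset Polynomial

/-- The kernel `h(x,y) = 1 - x + x y`. -/
def hh (x y : ℚ) : ℚ := 1 - x + x * y

/-- The kernel `g(x,y) = h(x,y)/(y-x)`. -/
def gg (x y : ℚ) : ℚ := hh x y / (y - x)

/-- The order three map `x ↦ 1 - 1/x`. -/
def sg (x : ℚ) : ℚ := 1 - 1 / x

/-- The star product of a one-variable function with a function on finite sets. -/
def st (F : ℚ → ℚ) (Q : Finset ℚ → ℚ) (U : Finset ℚ) : ℚ :=
  ∑ x ∈ U, F x * (∏ y ∈ U.erase x, gg x y) * Q (U.erase x)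

/-- The unit for the star product. -/
def e0 (U : Finset ℚ) : ℚ := if U = ∅ then 1 else 0

lemma st_congr {F F' : ℚ → ℚ} {Q Q' : Finset ℚ → ℚ} {U : Finset ℚ}
    (hF : ∀ x ∈ U, F x = F' x) (hQ : ∀ x ∈ U, Q (U.erase x) = Q' (U.erase x)) :
    st F Q U = st F' Q' U := by
  unfold st
  refine Finset.sum_congr rfl fun x hx => ?_
  rw [hF x hx, hQ x hx]

lemma st_add_left (F F' : ℚ → ℚ) (Q : Finset ℚ → ℚ) (U : Finset ℚ) :
    st (fun x => F x + F' x) Q U = st F Q U + st F' Q U := by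
  unfold st
  rw [← Finset.sum_add_distrib]
  refine Finset.sum_congr rfl fun x _ => ?_
  ring

lemma st_smul_left (c : ℚ) (F : ℚ → ℚ) (Q : Finset ℚ → ℚ) (U : Finset ℚ) :
    st (fun x => c * F x) Q U = c * st F Q U := by
  unfold st
  rw [Finset.mul_sum]
  refine Finset.sum_congr rfl fun x _ => ?_
  ring

lemma st_neg_left (F : ℚ → ℚ) (Q : Finset ℚ → ℚ) (U : Finset ℚ) :
    st (fun x => - F x) Q U = - st F Q U := by
  unfold st
  rw [← Finset.sum_neg_distrib]
  refine Finset.sum_congr rfl fun x _ => ?_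
  ring

lemma st_add_right (F : ℚ → ℚ) (Q Q' : Finset ℚ → ℚ) (U : Finset ℚ) :
    st F (fun V => Q V + Q' V) U = st F Q U + st F Q' U := by
  unfold st
  rw [← Finset.sum_add_distrib]
  refine Finset.sum_congr rfl fun x _ => ?_
  ring

lemma st_smul_right (c : ℚ) (F : ℚ → ℚ) (Q : Finset ℚ → ℚ) (U : Finset ℚ) :
    st F (fun V => c * Q V) U = c * st F Q U := by
  unfold st
  rw [Finset.mul_sum]
  refine Finset.sum_congr rfl fun x _ => ?_
  ring

lemma st_neg_right (F : ℚ → ℚ) (Q : Finset ℚ → ℚ) (U : Finset ℚ) :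
    st F (fun V => - Q V) U = - st F Q U := by
  unfold st
  rw [← Finset.sum_neg_distrib]
  refine Finset.sum_congr rfl fun x _ => ?_
  ring

lemma st_empty (F : ℚ → ℚ) (Q : Finset ℚ → ℚ) : st F Q ∅ = 0 := by
  simp [st]

/-- Multiplying by a product over the set commutes with the star product. -/
lemma prod_mul_st (H : ℚ → ℚ) (F : ℚ → ℚ) (Q : Finset ℚ → ℚ) (U : Finset ℚ) :
    (∏ y ∈ U, H y) * st F Q U = st (fun x => F x * H x) (fun V => (∏ y ∈ V, H y) * Q V) U := by
  unfold st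
  rw [Finset.mul_sum]
  refine Finset.sum_congr rfl fun x hx => ?_
  rw [← Finset.mul_prod_erase U H hx]
  ring

lemma st_st (F G : ℚ → ℚ) (Q : Finset ℚ → ℚ) (U : Finset ℚ) :
    st F (st G Q) U = ∑ x ∈ U, ∑ y ∈ U.erase x, F x * G y * gg x y *
      ((∏ z ∈ (U.erase x).erase y, gg x z * gg y z) * Q ((U.erase x).erase y)) := by
  unfold st
  refine Finset.sum_congr rfl fun x hx => ?_
  rw [Finset.mul_sum]
  refine Finset.sum_congr rfl fun y hy => ?_
  rw [← Finset.mul_prod_erase (U.erase x) (fun y => gg x y) hy, Finset.prod_mul_distrib]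
  ring

/-- The two-body lemma. -/
lemma two_body {F1 G1 F2 G2 : ℚ → ℚ} (Q : Finset ℚ → ℚ) (U : Finset ℚ)
    (h : ∀ x ∈ U, ∀ y ∈ U, x ≠ y → (F1 x * G1 y + F2 x * G2 y) * gg x y +
      (F1 y * G1 x + F2 y * G2 x) * gg y x = 0) :
    st F1 (st G1 Q) U + st F2 (st G2 Q) U = 0 := by
  rw [st_st, st_st, ← Finset.sum_add_distrib]
  simp_rw [← Finset.sum_add_distrib, ← add_mul]
  set K : ℚ → ℚ → ℚ := fun x y => (F1 x * G1 y + F2 x * G2 y) * gg x y *
    ((∏ z ∈ (U.erase x).erase y, gg x z * gg y z) * Q ((U.erase x).erase y)) with hK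
  have hswap : ∑ x ∈ U, ∑ y ∈ U.erase x, K x y = ∑ x ∈ U, ∑ y ∈ U.erase x, K y x := by
    rw [Finset.sum_comm' (s' := fun y => U.erase y) (t' := U)]
    intro x y
    simp only [Finset.mem_erase]
    constructor
    · rintro ⟨h1, h2, h3⟩; exact ⟨⟨h2.symm, h1⟩, h3⟩
    · rintro ⟨⟨h1, h2⟩, h3⟩; exact ⟨h2, h1.symm, h3⟩
  have hanti : ∑ x ∈ U, ∑ y ∈ U.erase x, (K x y + K y x) = 0 := by
    refine Finset.sum_eq_zero fun x hx => Finset.sum_eq_zero fun y hy => ?_
    have hy1 := Finset.ne_of_mem_erase hy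
    have hy2 := Finset.mem_of_mem_erase hy
    have h1 := h x hx y hy2 hy1.symm
    have h2 : (U.erase y).erase x = (U.erase x).erase y := Finset.erase_right_comm
    have h3 : ∏ z ∈ (U.erase x).erase y, gg y z * gg x z
        = ∏ z ∈ (U.erase x).erase y, gg x z * gg y z :=
      Finset.prod_congr rfl fun z _ => mul_comm _ _
    simp only [hK]
    rw [h2, h3]
    linear_combination ((∏ z ∈ (U.erase x).erase y, gg x z * gg y z) *
      Q ((U.erase x).erase y)) * h1
  simp_rw [Finset.sum_add_distrib] at hanti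
  rw [← hswap] at hanti
  change ∑ x ∈ U, ∑ y ∈ U.erase x, K x y = 0
  linarith

/-! ### Polynomiality in one element -/

/-- `Q` is, in each element of its argument, a polynomial of degree `< D`, away from `E`. -/
def IsPol (D : ℕ) (E : Finset ℚ) (Q : Finset ℚ → ℚ) : Prop :=
  ∀ V : Finset ℚ, Disjoint V E → ∃ p : ℚ[X], p ∈ degreeLT ℚ D ∧
    ∀ z, z ∉ V → z ∉ E → Q (insert z V) = p.eval z

lemma degreeLT_mul {p q : ℚ[X]} {a b : ℕ} (hp : p ∈ degreeLT ℚ a) (hq : q ∈ degreeLT ℚ (b + 1)) :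
    p * q ∈ degreeLT ℚ (a + b) := by
  by_cases hp0 : p = 0
  · subst hp0; rw [zero_mul]; exact Submodule.zero_mem _
  by_cases hq0 : q = 0
  · subst hq0; rw [mul_zero]; exact Submodule.zero_mem _
  rw [mem_degreeLT] at *
  rw [Polynomial.degree_eq_natDegree hp0] at hp
  rw [Polynomial.degree_eq_natDegree hq0] at hq
  rw [Polynomial.degree_eq_natDegree (mul_ne_zero hp0 hq0), Polynomial.natDegree_mul hp0 hq0]
  have h1 : p.natDegree < a := by exact_mod_cast hp
  have h2 : q.natDegree < b + 1 := by exact_mod_cast hq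
  have h3 : p.natDegree + q.natDegree < a + b := by omega
  exact_mod_cast h3

lemma degreeLT_mono' {p : ℚ[X]} {a b : ℕ} (hab : a ≤ b) (hp : p ∈ degreeLT ℚ a) :
    p ∈ degreeLT ℚ b := degreeLT_mono hab hp

lemma lin_mem (a b : ℚ) : (C a + C b * X : ℚ[X]) ∈ degreeLT ℚ 2 := by
  rw [mem_degreeLT]
  have : (C a + C b * X : ℚ[X]).degree ≤ 1 := by
    rw [add_comm]
    exact Polynomial.degree_linear_le
  exact lt_of_le_of_lt this (by norm_num)

lemma prod_lin_mem (V : Finset ℚ) (a b : ℚ → ℚ) :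
    (∏ y ∈ V, (C (a y) + C (b y) * X) : ℚ[X]) ∈ degreeLT ℚ (V.card + 1) := by
  induction V using Finset.induction_on with
  | empty =>
    simp only [Finset.prod_empty, Finset.card_empty, zero_add]
    rw [mem_degreeLT]
    simp
  | insert x V hx ih =>
    rw [Finset.prod_insert hx, Finset.card_insert_of_notMem hx, mul_comm]
    exact degreeLT_mul ih (b := 1) (lin_mem _ _)

lemma exists_div (V : Finset ℚ) (D : ℕ) (N : ℚ[X]) (hN : N ∈ degreeLT ℚ (D + V.card))
    (h0 : ∀ x ∈ V, N.eval x = 0) :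
    ∃ M ∈ degreeLT ℚ D, N = M * ∏ x ∈ V, (X - C x) := by
  have hdvd : (∏ x ∈ V, (X - C x)) ∣ N := by
    refine Finset.prod_dvd_of_coprime ?_ ?_
    · intro a _ b _ hab
      exact pairwise_coprime_X_sub_C (Function.injective_id) hab
    · intro x hx
      exact dvd_iff_isRoot.2 (h0 x hx)
  obtain ⟨M, hM⟩ := hdvd
  refine ⟨M, ?_, by rw [hM, mul_comm]⟩
  by_cases hM0 : M = 0
  · subst hM0; exact Submodule.zero_mem _
  have hP0 : (∏ x ∈ V, (X - C x) : ℚ[X]) ≠ 0 :=
    Finset.prod_ne_zero_iff.2 fun x _ => X_sub_C_ne_zero x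
  have hdeg : (∏ x ∈ V, (X - C x) : ℚ[X]).natDegree = V.card := by
    rw [Polynomial.natDegree_prod_of_monic _ _ (fun x _ => monic_X_sub_C x)]
    simp
  rw [hM, mem_degreeLT, Polynomial.degree_eq_natDegree (mul_ne_zero hP0 hM0),
    Polynomial.natDegree_mul hP0 hM0, hdeg] at hN
  rw [mem_degreeLT, Polynomial.degree_eq_natDegree hM0]
  have h1 : V.card + M.natDegree < D + V.card := by exact_mod_cast hN
  have h2 : M.natDegree < D := by omega
  exact_mod_cast h2

/-- The star product preserves polynomiality. -/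
lemma IsPol.st {D : ℕ} {E : Finset ℚ} {F : ℚ → ℚ} {Q : Finset ℚ → ℚ}
    (hF : ∃ f ∈ degreeLT ℚ D, ∀ x, F x = Polynomial.eval x f) (hQ : IsPol D E Q) :
    IsPol D E (st F Q) := by
  intro V hV
  obtain ⟨f, hf, hFf⟩ := hF
  have hq := fun x => hQ (V.erase x) (hV.mono_left (Finset.erase_subset x V))
  choose q hqd hqe using hq
  set N : ℚ[X] := f * (∏ y ∈ V, (C 1 + C (y - 1) * X)) * C ((-1) ^ V.card * Q V) +
    ∑ x ∈ V, C (F x * ∏ y ∈ V.erase x, gg x y) * ((q x * (C (1 - x) + C x * X)) *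
      ∏ y ∈ V.erase x, (C (-y) + C 1 * X)) with hN
  have hNd : N ∈ degreeLT ℚ (D + V.card) := by
    refine Submodule.add_mem _ ?_ (Submodule.sum_mem _ fun x hx => ?_)
    · have h1 := degreeLT_mul hf (prod_lin_mem V (fun _ => 1) (fun y => y - 1))
      have h2 : (C ((-1) ^ V.card * Q V) : ℚ[X]) ∈ degreeLT ℚ (0 + 1) := by
        rw [mem_degreeLT]
        exact lt_of_le_of_lt Polynomial.degree_C_le (by norm_num)
      have h3 := degreeLT_mul h1 (b := 0) h2
      rwa [add_zero] at h3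
    · rw [mul_comm]
      have h1 : (C (F x * ∏ y ∈ V.erase x, gg x y) : ℚ[X]) ∈ degreeLT ℚ (0 + 1) := by
        rw [mem_degreeLT]
        exact lt_of_le_of_lt Polynomial.degree_C_le (by norm_num)
      have h2 := degreeLT_mul (hqd x) (b := 1) (lin_mem (1 - x) x)
      have h3 := degreeLT_mul h2 (prod_lin_mem (V.erase x) (fun y => -y) (fun _ => 1))
      have h4 := degreeLT_mul h3 h1
      have h5 : D + 1 + (V.erase x).card + 0 = D + V.card := by
        have := Finset.card_erase_add_one hx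
        omega
      rwa [h5] at h4
  have hNe : ∀ z, N.eval z = F z * (∏ y ∈ V, hh z y) * ((-1) ^ V.card * Q V) +
      ∑ x ∈ V, F x * (∏ y ∈ V.erase x, gg x y) * ((q x).eval z * hh x z *
        ∏ y ∈ V.erase x, (z - y)) := by
    intro z
    rw [hN, eval_add, eval_mul, eval_mul, eval_C, eval_prod, eval_finsetSum, ← hFf]
    congr 1
    · congr 2
      refine Finset.prod_congr rfl fun y _ => ?_
      simp only [eval_add, eval_mul, eval_C, eval_X, hh]; ring
    · refine Finset.sum_congr rfl fun x _ => ?_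
      rw [eval_mul, eval_mul, eval_mul, eval_C, eval_prod]
      congr 1
      congr 1
      · congr 1
        simp only [eval_add, eval_mul, eval_C, eval_X, hh]
      · refine Finset.prod_congr rfl fun y _ => ?_
        simp only [eval_add, eval_mul, eval_C, eval_X]; ring
  have hroot : ∀ a ∈ V, N.eval a = 0 := by
    intro a ha
    rw [hNe, Finset.sum_eq_single_of_mem a ha]
    · have h1 : (q a).eval a = Q V := by
        rw [← hqe a a (Finset.notMem_erase a V)
          (Finset.disjoint_left.1 hV ha), Finset.insert_erase ha]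
      have h2 : (∏ y ∈ V.erase a, gg a y) * ∏ y ∈ V.erase a, (a - y) =
          (-1) ^ (V.erase a).card * ∏ y ∈ V.erase a, hh a y := by
        rw [← Finset.prod_mul_distrib, ← Finset.prod_const, ← Finset.prod_mul_distrib]
        refine Finset.prod_congr rfl fun y hy => ?_
        have : y - a ≠ 0 := sub_ne_zero.2 (Finset.ne_of_mem_erase hy)
        unfold gg
        field_simp
        ring
      have h3 : V.card = (V.erase a).card + 1 := (Finset.card_erase_add_one ha).symm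
      rw [h1, ← Finset.mul_prod_erase V (fun y => hh a y) ha, h3, pow_succ]
      linear_combination F a * Q V * hh a a * h2
    · intro b hb hba
      have h4 : a ∈ V.erase b := Finset.mem_erase.2 ⟨hba.symm, ha⟩
      rw [Finset.prod_eq_zero h4 (sub_self a : a - a = 0)]
      ring
  obtain ⟨M, hMd, hM⟩ := exists_div V D N hNd hroot
  refine ⟨M, hMd, fun z hzV hzE => ?_⟩
  have hPz : ∏ x ∈ V, (z - x) ≠ 0 := Finset.prod_ne_zero_iff.2 fun x hx =>
    sub_ne_zero.2 fun h => hzV (h ▸ hx)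
  have h1 : N.eval z = M.eval z * ∏ x ∈ V, (z - x) := by
    rw [hM, eval_mul, eval_prod]
    simp
  apply mul_right_cancel₀ hPz
  rw [← h1, hNe]
  unfold Helper79.st
  rw [Finset.sum_insert hzV, Finset.erase_insert hzV, add_mul, Finset.sum_mul]
  congr 1
  · have h5 : (∏ y ∈ V, gg z y) * ∏ y ∈ V, (z - y) = (-1) ^ V.card * ∏ y ∈ V, hh z y := by
      rw [← Finset.prod_mul_distrib, ← Finset.prod_const, ← Finset.prod_mul_distrib]
      refine Finset.prod_congr rfl fun y hy => ?_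
      have : y - z ≠ 0 := sub_ne_zero.2 fun h => hzV (h ▸ hy)
      unfold gg
      field_simp
      ring
    linear_combination F z * Q V * h5
  · refine Finset.sum_congr rfl fun x hx => ?_
    have hzx : z ≠ x := fun h => hzV (h ▸ hx)
    have hz' : z ∉ V.erase x := fun h => hzV (Finset.mem_of_mem_erase h)
    rw [Finset.erase_insert_of_ne hzx, Finset.prod_insert hz', hqe x z hz' hzE,
      ← Finset.mul_prod_erase V (fun y => z - y) hx]
    have : z - x ≠ 0 := sub_ne_zero.2 hzx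
    have h6 : gg x z * (z - x) = hh x z := by
      unfold gg
      field_simp
    linear_combination F x * (∏ y ∈ V.erase x, gg x y) * (q x).eval z *
      (∏ y ∈ V.erase x, (z - y)) * h6

lemma isPol_e0 (E : Finset ℚ) : IsPol 0 E e0 := by
  intro V _
  refine ⟨0, Submodule.zero_mem _, fun z _ _ => ?_⟩
  simp [e0]

lemma IsPol.mono {D D' : ℕ} {E E' : Finset ℚ} {Q : Finset ℚ → ℚ} (h : IsPol D E Q)
    (hD : D ≤ D') (hE : E ⊆ E') : IsPol D' E' Q := by
  intro V hV
  obtain ⟨p, hp, hp'⟩ := h V (hV.mono_right hE)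
  exact ⟨p, degreeLT_mono' hD hp, fun z h1 h2 => hp' z h1 fun h3 => h2 (hE h3)⟩

lemma IsPol.sub {D : ℕ} {E : Finset ℚ} {Q Q' : Finset ℚ → ℚ} (h : IsPol D E Q)
    (h' : IsPol D E Q') : IsPol D E (fun U => Q U - Q' U) := by
  intro V hV
  obtain ⟨p, hp, hp'⟩ := h V hV
  obtain ⟨p', hp1, hp1'⟩ := h' V hV
  refine ⟨p - p', Submodule.sub_mem _ hp hp1, fun z h1 h2 => ?_⟩
  simp only [eval_sub]
  rw [hp' z h1 h2, hp1' z h1 h2]

lemma IsPol.add {D : ℕ} {E : Finset ℚ} {Q Q' : Finset ℚ → ℚ} (h : IsPol D E Q)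
    (h' : IsPol D E Q') : IsPol D E (fun U => Q U + Q' U) := by
  intro V hV
  obtain ⟨p, hp, hp'⟩ := h V hV
  obtain ⟨p', hp1, hp1'⟩ := h' V hV
  refine ⟨p + p', Submodule.add_mem _ hp hp1, fun z h1 h2 => ?_⟩
  simp only [eval_add]
  rw [hp' z h1 h2, hp1' z h1 h2]

lemma IsPol.const_mul {D : ℕ} {E : Finset ℚ} {Q : Finset ℚ → ℚ} (c : ℚ) (h : IsPol D E Q) :
    IsPol D E (fun U => c * Q U) := by
  intro V hV
  obtain ⟨p, hp, hp'⟩ := h V hV
  refine ⟨c • p, Submodule.smul_mem _ _ hp, fun z h1 h2 => ?_⟩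
  simp only [eval_smul, smul_eq_mul]
  rw [hp' z h1 h2]

/-- Multiplying by a product of linear factors raises the degree by one. -/
lemma IsPol.prod_mul {D : ℕ} {E : Finset ℚ} {Q : Finset ℚ → ℚ} (a b : ℚ) (h : IsPol D E Q) :
    IsPol (D + 1) E (fun U => (∏ y ∈ U, (a + b * y)) * Q U) := by
  intro V hV
  obtain ⟨p, hp, hp'⟩ := h V hV
  refine ⟨C (∏ y ∈ V, (a + b * y)) * (p * (C a + C b * X)), ?_, fun z h1 h2 => ?_⟩
  · rw [← smul_eq_C_mul]
    exact Submodule.smul_mem _ _ (degreeLT_mul hp (lin_mem a b))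
  · simp only [eval_mul, eval_C, eval_add, eval_X]
    rw [Finset.prod_insert h1, hp' z h1 h2]
    ring

end Helper79
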