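import Mathlib

set_option autoImplicit false

namespace Helper79

/-- Triangular arrays of integers with `n` rows: row `i` (for `i = 0, …, n-1`) has the entries
`a i 0, …, a i i`. -/
abbrev Tri (n : ℕ) : Type := (i : Fin n) → Fin (i.val + 1) → ℤ

/-- The monotone triangles with `n` rows and bottom row `k`: every row is strictly increasing,
`a (i+1) j ≤ a i j ≤ a (i+1) (j+1)` for consecutive rows, and the last row is `k`. -/
def MonotoneTriangles (n : ℕ) (k : Fin n → ℤ) : Set (Tri n) :=
  {a | (∀ i : Fin n, StrictMono (a i)) ∧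
    (∀ (i : Fin n) (h : i.val + 1 < n) (j : Fin (i.val + 1)),
      a ⟨i.val + 1, h⟩ j.castSucc ≤ a i j ∧ a i j ≤ a ⟨i.val + 1, h⟩ j.succ) ∧
    ∀ (i : Fin n) (h : i.val + 1 = n) (j : Fin (i.val + 1)), a i j = k (Fin.cast h j)}

/-- `P` is the monotone triangle polynomial `α(n; k₁, …, kₙ)`: at every strictly increasing
integer tuple `k` its value is the number of monotone triangles with bottom row `k`. -/
def IsAlpha (n : ℕ) (P : MvPolynomial (Fin n) ℚ) : Prop :=
  ∀ k : Fin n → ℤ, StrictMono k →
    MvPolynomial.eval (fun i => (k i : ℚ)) P = ((MonotoneTriangles n k).ncard : ℚ)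

end Helper79
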