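import Pool.Agent.Helper79.PolyFun
import Pool.Agent.Helper79.MTDefs

set_option autoImplicit false

namespace Helper79

open Finset

open Classical in
/-- Rows interlacing a given row. -/
noncomputable def RowsN {n : ℕ} (K : Fin (n + 1) → ℕ) : Finset (Fin n → ℕ) :=
  (Fintype.piFinset fun j : Fin n => Finset.Icc (K j.castSucc) (K j.succ)).filter
    (fun l => StrictMono l)

lemma mem_RowsN {n : ℕ} {K : Fin (n + 1) → ℕ} {l : Fin n → ℕ} :
    l ∈ RowsN K ↔ StrictMono l ∧ ∀ j : Fin n, K j.castSucc ≤ l j ∧ l j ≤ K j.succ := by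
  unfold RowsN
  rw [Finset.mem_filter, Fintype.mem_piFinset, and_comm]
  simp only [Finset.mem_Icc]

lemma strictMono_cons {n : ℕ} (a : ℕ) (l : Fin n → ℕ) :
    StrictMono (Fin.cons a l : Fin (n + 1) → ℕ) ↔ (∀ j, a < l j) ∧ StrictMono l := by
  constructor
  · intro h
    refine ⟨fun j => ?_, fun i j hij => ?_⟩
    · have := h (Fin.succ_pos j)
      simpa using this
    · have := h (Fin.succ_lt_succ_iff.2 hij)
      simpa using this
  · rintro ⟨h1, h2⟩ i j hij
    induction i using Fin.cases with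
    | zero =>
      induction j using Fin.cases with
      | zero => exact absurd hij (lt_irrefl _)
      | succ j => simpa using h1 j
    | succ i =>
      induction j using Fin.cases with
      | zero => exact absurd hij (by simp)
      | succ j => simpa using h2 (Fin.succ_lt_succ_iff.1 hij)

lemma mem_RowsN_cons {n : ℕ} (k a l0 : ℕ) (w' l' : Fin n → ℕ) :
    (Fin.cons l0 l' : Fin (n + 1) → ℕ) ∈ RowsN (Fin.cons k (Fin.cons a w' : Fin (n + 1) → ℕ)) ↔
      (k ≤ l0 ∧ l0 ≤ a) ∧ l' ∈ RowsN (Fin.cons (max a (l0 + 1)) w' : Fin (n + 1) → ℕ) := by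
  rw [mem_RowsN, mem_RowsN, strictMono_cons, Fin.forall_fin_succ]
  simp only [Fin.cons_zero, Fin.cons_succ, Fin.castSucc_zero, ← Fin.succ_castSucc]
  constructor
  · rintro ⟨⟨h1, h2⟩, h3, h4⟩
    refine ⟨h3, h2, fun j => ⟨?_, (h4 j).2⟩⟩
    have h5 := (h4 j).1
    cases n with
    | zero => exact j.elim0
    | succ n =>
      induction j using Fin.cases with
      | zero =>
        simp only [Fin.castSucc_zero, Fin.cons_zero] at h5 ⊢
        exact max_le h5 (h1 0)
      | succ j =>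
        rw [← Fin.succ_castSucc, Fin.cons_succ] at h5 ⊢
        exact h5
  · rintro ⟨h3, h2, h4⟩
    refine ⟨⟨fun j => ?_, h2⟩, h3, fun j => ⟨?_, (h4 j).2⟩⟩
    · cases n with
      | zero => exact j.elim0
      | succ n =>
        have h5 := (h4 0).1
        simp only [Fin.castSucc_zero, Fin.cons_zero] at h5
        have h6 : l' 0 ≤ l' j := h2.monotone (Fin.zero_le j)
        have h7 := le_trans (le_max_right a (l0 + 1)) h5
        omega
    · have h5 := (h4 j).1
      cases n with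
      | zero => exact j.elim0
      | succ n =>
        induction j using Fin.cases with
        | zero =>
          simp only [Fin.castSucc_zero, Fin.cons_zero] at h5 ⊢
          exact le_trans (le_max_left _ _) h5
        | succ j =>
          rw [← Fin.succ_castSucc, Fin.cons_succ] at h5 ⊢
          exact h5

lemma Rf_RowsN : ∀ (n : ℕ) (k : ℕ) (w : Fin n → ℕ) (φ : List ℕ → ℚ), StrictMono w →
    (∀ j, k ≤ w j) → Rf k (List.ofFn w) φ =
      ∑ l ∈ RowsN (Fin.cons k w : Fin (n + 1) → ℕ), φ (List.ofFn l)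
  | 0, k, w, φ, _, _ => by
    have h : RowsN (Fin.cons k w : Fin 1 → ℕ) = {default} := by
      ext l
      rw [mem_RowsN, Finset.mem_singleton]
      constructor
      · intro _; exact Subsingleton.elim _ _
      · intro _; exact ⟨Subsingleton.strictMono l, fun j => j.elim0⟩
    rw [h, Finset.sum_singleton]
    simp [Rf]
  | n + 1, k, w, φ, hw, hk => by
    obtain ⟨a, w', rfl⟩ : ∃ a w', w = (Fin.cons a w' : Fin (n + 1) → ℕ) :=
      ⟨w 0, Fin.tail w, (Fin.cons_self_tail w).symm⟩
    rw [strictMono_cons] at hw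
    have hka : k ≤ a := by simpa using hk 0
    have hofn : List.ofFn (Fin.cons a w' : Fin (n + 1) → ℕ) = a :: List.ofFn w' := by
      rw [List.ofFn_succ]
      simp
    have hofn2 : ∀ (l0 : ℕ) (l' : Fin n → ℕ),
        List.ofFn (Fin.cons l0 l' : Fin (n + 1) → ℕ) = l0 :: List.ofFn l' := by
      intro l0 l'
      rw [List.ofFn_succ]
      simp
    rw [hofn, Rf, Finset.Ico_eq_empty_of_le hka, Finset.sum_empty, sub_zero]
    have ih1 : ∀ l0, Rf a (List.ofFn w') (fun t => φ (l0 :: t)) =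
        ∑ l' ∈ RowsN (Fin.cons a w' : Fin (n + 1) → ℕ), φ (l0 :: List.ofFn l') := fun l0 =>
      Rf_RowsN n a w' _ hw.2 fun j => (hw.1 j).le
    have ih2 : Rf (a + 1) (List.ofFn w') (fun t => φ (a :: t)) =
        ∑ l' ∈ RowsN (Fin.cons (a + 1) w' : Fin (n + 1) → ℕ), φ (a :: List.ofFn l') :=
      Rf_RowsN n (a + 1) w' _ hw.2 fun j => hw.1 j
    rw [ih2]
    simp_rw [ih1]
    have h1 : ∑ l0 ∈ Finset.Ico k a, ∑ l' ∈ RowsN (Fin.cons a w' : Fin (n + 1) → ℕ),
          φ (l0 :: List.ofFn l') +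
        ∑ l' ∈ RowsN (Fin.cons (a + 1) w' : Fin (n + 1) → ℕ), φ (a :: List.ofFn l') =
        ∑ l0 ∈ Finset.Icc k a, ∑ l' ∈ RowsN (Fin.cons (max a (l0 + 1)) w' : Fin (n + 1) → ℕ),
          φ (l0 :: List.ofFn l') := by
      rw [← Finset.Ico_insert_right hka, Finset.sum_insert (by simp), add_comm]
      congr 1
      · rw [max_eq_right (Nat.le_succ a)]
      · refine Finset.sum_congr rfl fun l0 hl0 => ?_
        rw [max_eq_left (Nat.succ_le_of_lt (Finset.mem_Ico.1 hl0).2)]
    rw [h1, Finset.sum_sigma']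
    refine Finset.sum_bij' (fun x _ => (Fin.cons x.1 x.2 : Fin (n + 1) → ℕ))
      (fun l _ => ⟨l 0, Fin.tail l⟩) ?_ ?_ ?_ ?_ ?_
    · rintro ⟨l0, l'⟩ h
      rw [Finset.mem_sigma, Finset.mem_Icc] at h
      exact (mem_RowsN_cons k a l0 w' l').2 h
    · intro l hl
      rw [← Fin.cons_self_tail l] at hl
      rw [Finset.mem_sigma, Finset.mem_Icc]
      exact (mem_RowsN_cons k a (l 0) w' (Fin.tail l)).1 hl
    · rintro ⟨l0, l'⟩ _
      simp
    · intro l _
      exact Fin.cons_self_tail l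
    · rintro ⟨l0, l'⟩ _
      simp only [hofn2]

lemma alW_RowsN {n : ℕ} (w : Fin (n + 1) → ℕ) (hw : StrictMono w) :
    alW (List.ofFn w) = ∑ l ∈ RowsN w, alW (List.ofFn l) := by
  obtain ⟨a, w', rfl⟩ : ∃ a w', w = (Fin.cons a w' : Fin (n + 1) → ℕ) :=
    ⟨w 0, Fin.tail w, (Fin.cons_self_tail w).symm⟩
  rw [strictMono_cons] at hw
  have hofn : List.ofFn (Fin.cons a w' : Fin (n + 1) → ℕ) = a :: List.ofFn w' := by
    rw [List.ofFn_succ]
    simp
  rw [hofn, alW_cons, Rf_RowsN n a w' alW hw.2 fun j => (hw.1 j).le]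

/-! ### Triangles -/

lemma tri_congr {N : ℕ} (a : Tri N) (i i' : Fin N) (hi : i.val = i'.val) (j : Fin (i.val + 1))
    (j' : Fin (i'.val + 1)) (hj : j.val = j'.val) : a i j = a i' j' := by
  obtain ⟨i, hi1⟩ := i
  obtain ⟨i', hi1'⟩ := i'
  simp only at hi
  subst hi
  have : j = j' := Fin.ext hj
  rw [this]

/-- Adding a bottom row. -/
def extT {n : ℕ} (a' : Tri n) (k : Fin (n + 1) → ℤ) : Tri (n + 1) := fun i j =>
  if h : i.val < n then a' ⟨i.val, h⟩ j else k ⟨j.val, by omega⟩

lemma extT_mem {n : ℕ} {w : Fin (n + 1) → ℕ} (hw : StrictMono w) {l : Fin n → ℕ}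
    (hl : l ∈ RowsN w) {a' : Tri n} (ha : a' ∈ MonotoneTriangles n (fun i => (l i : ℤ))) :
    extT a' (fun i => (w i : ℤ)) ∈ MonotoneTriangles (n + 1) (fun i => (w i : ℤ)) := by
  rw [mem_RowsN] at hl
  obtain ⟨ha1, ha2, ha3⟩ := ha
  refine ⟨fun i => ?_, fun i h j => ?_, fun i h j => ?_⟩
  · by_cases h : i.val < n
    · have : extT a' (fun i => (w i : ℤ)) i = a' ⟨i.val, h⟩ := by
        funext j
        simp [extT, h]
      rw [this]
      exact ha1 _
    · intro j j' hj
      simp only [extT, h, dite_false]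
      have : w ⟨j.val, by omega⟩ < w ⟨j'.val, by omega⟩ := hw (by
        rw [Fin.lt_def]; exact hj)
      exact_mod_cast this
  · have hi : i.val < n := by omega
    by_cases h2 : i.val + 1 < n
    · simp only [extT, h2, hi, dite_true]
      exact ha2 ⟨i.val, hi⟩ h2 j
    · have h3 : i.val + 1 = n := by omega
      simp only [extT, h2, hi, dite_true, dite_false]
      have h4 := ha3 ⟨i.val, hi⟩ h3 j
      have h5 := hl.2 (Fin.cast h3 j)
      rw [h4]
      beta_reduce
      constructor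
      · have : w ⟨(j.castSucc).val, by have := j.2; simp; omega⟩ = w (Fin.cast h3 j).castSucc := rfl
        rw [this]
        exact_mod_cast h5.1
      · have : w ⟨(j.succ).val, by have := j.2; simp; omega⟩ = w (Fin.cast h3 j).succ := rfl
        rw [this]
        exact_mod_cast h5.2
  · have h2 : ¬ i.val < n := by omega
    simp only [extT, h2, dite_false]
    rfl

/-- The map adding a bottom row. -/
def glue {n : ℕ} {w : Fin (n + 1) → ℕ} (hw : StrictMono w)
    (x : Σ l : {l // l ∈ RowsN w}, MonotoneTriangles n (fun i => (l.1 i : ℤ))) :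
    MonotoneTriangles (n + 1) (fun i => (w i : ℤ)) :=
  ⟨extT x.2.1 (fun i => (w i : ℤ)), extT_mem hw x.1.2 x.2.2⟩

lemma glue_injective {n : ℕ} {w : Fin (n + 1) → ℕ} (hw : StrictMono w) :
    Function.Injective (glue hw) := by
  rintro ⟨⟨l, hl⟩, ⟨a, ha⟩⟩ ⟨⟨l', hl'⟩, ⟨a', ha'⟩⟩ h
  have h1 : extT a (fun i => (w i : ℤ)) = extT a' (fun i => (w i : ℤ)) := congrArg Subtype.val h
  have h2 : a = a' := by
    funext i j
    have h3 := congrFun (congrFun h1 i.castSucc) j
    simpa [extT] using h3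
  subst h2
  have h3 : l = l' := by
    funext j
    have hn : 0 < n := lt_of_le_of_lt (Nat.zero_le _) j.2
    have e1 := ha.2.2 ⟨n - 1, by omega⟩ (by simp; omega) ⟨j.val, by simp; omega⟩
    have e2 := ha'.2.2 ⟨n - 1, by omega⟩ (by simp; omega) ⟨j.val, by simp; omega⟩
    rw [e1] at e2
    have e3 : Fin.cast (show n - 1 + 1 = n by omega) ⟨j.val, by omega⟩ = j := Fin.ext rfl
    simp only [e3] at e2
    exact_mod_cast e2
  subst h3
  rfl

lemma glue_surjective {n : ℕ} {w : Fin (n + 1) → ℕ} (hw : StrictMono w) :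
    Function.Surjective (glue hw) := by
  rintro ⟨a, ha⟩
  obtain ⟨ha1, ha2, ha3⟩ := ha
  set l : Fin n → ℕ := fun j => (a ⟨n - 1, by omega⟩ ⟨j.val, by have := j.2; simp; omega⟩).toNat
    with hl
  -- the interlacing with the bottom row
  have hint : ∀ j : Fin n, (w j.castSucc : ℤ) ≤
      a ⟨n - 1, by omega⟩ ⟨j.val, by have := j.2; simp; omega⟩ ∧
      a ⟨n - 1, by omega⟩ ⟨j.val, by have := j.2; simp; omega⟩ ≤ (w j.succ : ℤ) := by
    intro j
    have hn : 0 < n := lt_of_le_of_lt (Nat.zero_le _) j.2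
    have h1 := ha2 ⟨n - 1, by omega⟩ (by simp; omega) ⟨j.val, by simp; omega⟩
    have h2 := ha3 ⟨n, by omega⟩ rfl
    have e1 : a ⟨n - 1 + 1, by omega⟩
        (Fin.castSucc (⟨j.val, by have := j.2; omega⟩ : Fin (n - 1 + 1))) = w j.castSucc := by
      rw [tri_congr a ⟨n - 1 + 1, by omega⟩ ⟨n, by omega⟩ (show n - 1 + 1 = n by omega) _
        ⟨j.val, show j.val < n + 1 by have := j.2; omega⟩ (by simp), h2]
      rfl
    have e2 : a ⟨n - 1 + 1, by omega⟩
        (Fin.succ (⟨j.val, by have := j.2; omega⟩ : Fin (n - 1 + 1))) = w j.succ := by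
      rw [tri_congr a ⟨n - 1 + 1, by omega⟩ ⟨n, by omega⟩ (show n - 1 + 1 = n by omega) _
        ⟨j.val + 1, show j.val + 1 < n + 1 by have := j.2; omega⟩ (by simp), h2]
      rfl
    exact ⟨e1 ▸ h1.1, e2 ▸ h1.2⟩
  have hlz : ∀ j : Fin n, ((l j : ℕ) : ℤ) =
      a ⟨n - 1, by omega⟩ ⟨j.val, by have := j.2; simp; omega⟩ := by
    intro j
    rw [hl]
    exact Int.toNat_of_nonneg (le_trans (Int.natCast_nonneg _) (hint j).1)
  have hlR : l ∈ RowsN w := by
    rw [mem_RowsN]
    refine ⟨fun j j' hj => ?_, fun j => ?_⟩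
    · have : ((l j : ℕ) : ℤ) < l j' := by
        rw [hlz, hlz]
        exact ha1 _ (by rw [Fin.lt_def]; exact hj)
      exact_mod_cast this
    · have := hint j
      rw [← hlz] at this
      exact ⟨by exact_mod_cast this.1, by exact_mod_cast this.2⟩
  have ha' : (fun i j => a i.castSucc j : Tri n) ∈ MonotoneTriangles n (fun i => (l i : ℤ)) := by
    refine ⟨fun i => ha1 i.castSucc, fun i h j => ?_, fun i h j => ?_⟩
    · exact ha2 i.castSucc (show i.val + 1 < n + 1 by omega) j
    · beta_reduce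
      rw [hlz]
      exact tri_congr a _ _ (show i.val = n - 1 by omega) _ _ rfl
  refine ⟨⟨⟨l, hlR⟩, ⟨_, ha'⟩⟩, ?_⟩
  apply Subtype.ext
  funext i j
  change extT (fun i j => a i.castSucc j : Tri n) (fun i => (w i : ℤ)) i j = a i j
  unfold extT
  by_cases h : i.val < n
  · simp only [h, dite_true]
    exact tri_congr a _ _ rfl _ _ rfl
  · simp only [h, dite_false]
    have h2 : i.val + 1 = n + 1 := by omega
    rw [ha3 i h2 j]
    rfl

theorem MT_count : ∀ (n : ℕ) (w : Fin n → ℕ), StrictMono w →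
    (MonotoneTriangles n (fun i => (w i : ℤ))).Finite ∧
      ((MonotoneTriangles n (fun i => (w i : ℤ))).ncard : ℚ) = alW (List.ofFn w)
  | 0, w, hw => by
    have h : MonotoneTriangles 0 (fun i => (w i : ℤ)) = {fun i => i.elim0} := by
      ext a
      rw [Set.mem_singleton_iff]
      constructor
      · intro _; exact Subsingleton.elim _ _
      · intro _
        exact ⟨fun i => i.elim0, fun i => i.elim0, fun i => i.elim0⟩
    rw [h]
    refine ⟨Set.finite_singleton _, ?_⟩
    rw [Set.ncard_singleton, List.ofFn_zero, alW_nil]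
    norm_num
  | n + 1, w, hw => by
    have ih := fun l : {l // l ∈ RowsN w} => MT_count n l.1 (mem_RowsN.1 l.2).1
    have hfin : ∀ l : {l // l ∈ RowsN w},
        Finite (MonotoneTriangles n (fun i => (l.1 i : ℤ))) := fun l => (ih l).1.to_subtype
    have e := Equiv.ofBijective (glue hw) ⟨glue_injective hw, glue_surjective hw⟩
    have hf : Finite (MonotoneTriangles (n + 1) (fun i => (w i : ℤ))) := Finite.of_equiv _ e
    refine ⟨Set.toFinite _, ?_⟩
    rw [← Nat.card_coe_set_eq, ← Nat.card_congr e, Nat.card_sigma, alW_RowsN w hw]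
    push_cast
    rw [Finset.sum_coe_sort_eq_attach, ← Finset.sum_attach (RowsN w)]
    refine Finset.sum_congr rfl fun l _ => ?_
    rw [← (ih l).2, Nat.card_coe_set_eq]

end Helper79
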