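import Pool.Agent.Helper79.ThmX

set_option autoImplicit false

namespace Helper79

open Finset Polynomial

/-- Polynomial functions of one variable. -/
def PF1 (f : ℚ → ℚ) : Prop := ∃ p : ℚ[X], ∀ z, f z = p.eval z

lemma PF1.const (c : ℚ) : PF1 (fun _ => c) := ⟨C c, fun z => by simp⟩

lemma PF1.id : PF1 (fun z => z) := ⟨X, fun z => by simp⟩

lemma PF1.add {f g : ℚ → ℚ} (hf : PF1 f) (hg : PF1 g) : PF1 (fun z => f z + g z) := by
  obtain ⟨p, hp⟩ := hf
  obtain ⟨q, hq⟩ := hg
  exact ⟨p + q, fun z => by beta_reduce; rw [hp, hq, eval_add]⟩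

lemma PF1.sub {f g : ℚ → ℚ} (hf : PF1 f) (hg : PF1 g) : PF1 (fun z => f z - g z) := by
  obtain ⟨p, hp⟩ := hf
  obtain ⟨q, hq⟩ := hg
  exact ⟨p - q, fun z => by beta_reduce; rw [hp, hq, eval_sub]⟩

lemma PF1.mul {f g : ℚ → ℚ} (hf : PF1 f) (hg : PF1 g) : PF1 (fun z => f z * g z) := by
  obtain ⟨p, hp⟩ := hf
  obtain ⟨q, hq⟩ := hg
  exact ⟨p * q, fun z => by beta_reduce; rw [hp, hq, eval_mul]⟩

lemma PF1.sum {ι : Type} (s : Finset ι) (f : ι → ℚ → ℚ) (hf : ∀ i ∈ s, PF1 (f i)) :
    PF1 (fun z => ∑ i ∈ s, f i z) := by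
  classical
  induction s using Finset.induction_on with
  | empty => simpa using PF1.const 0
  | insert a s ha ih =>
    simp_rw [Finset.sum_insert ha]
    exact (hf a (Finset.mem_insert_self _ _)).add (ih fun i hi => hf i (Finset.mem_insert_of_mem hi))

lemma PF1.prod {ι : Type} (s : Finset ι) (f : ι → ℚ → ℚ) (hf : ∀ i ∈ s, PF1 (f i)) :
    PF1 (fun z => ∏ i ∈ s, f i z) := by
  classical
  induction s using Finset.induction_on with
  | empty => simpa using PF1.const 1
  | insert a s ha ih =>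
    simp_rw [Finset.prod_insert ha]
    exact (hf a (Finset.mem_insert_self _ _)).mul (ih fun i hi => hf i (Finset.mem_insert_of_mem hi))

lemma PF1.hh_left (w : ℚ) : PF1 (fun z => hh z w) :=
  ⟨C 1 + C (w - 1) * X, fun z => by
    simp only [eval_add, eval_mul, eval_C, eval_X, hh]; ring⟩

lemma PF1.hh_right (w : ℚ) : PF1 (fun z => hh w z) :=
  ⟨C (1 - w) + C w * X, fun z => by
    simp only [eval_add, eval_mul, eval_C, eval_X, hh]⟩

lemma PF1.listprod {ι : Type} (l : List ι) (f : ι → ℚ → ℚ) (hf : ∀ i ∈ l, PF1 (f i)) :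
    PF1 (fun z => (l.map (fun i => f i z)).prod) := by
  induction l with
  | nil => simpa using PF1.const 1
  | cons a l ih =>
    simp_rw [List.map_cons, List.prod_cons]
    exact (hf a List.mem_cons_self).mul (ih fun i hi => hf i (List.mem_cons_of_mem _ hi))

lemma PF1.eq_of_eventually {f g : ℚ → ℚ} (hf : PF1 f) (hg : PF1 g)
    (h : ∀ᶠ z in Filter.cofinite, f z = g z) : ∀ z, f z = g z := by
  obtain ⟨p, hp⟩ := hf
  obtain ⟨q, hq⟩ := hg
  have : p = q := poly_eq_of_eventually (by
    filter_upwards [h] with z hz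
    rw [← hp, ← hq, hz])
  intro z
  rw [hp, hq, this]

lemma PF1.TT_head (l : List ℚ) (U : Finset ℚ) : PF1 (fun z => TT (z :: l) U) := by
  obtain ⟨p, _, hp⟩ := TT_poly_head l U
  exact ⟨p, hp⟩

lemma PF1.ff_head (l : List ℚ) (y : ℚ) (U : Finset ℚ) : PF1 (fun z => ff (z :: l) y U) := by
  unfold ff sh
  refine PF1.sum _ _ fun I _ => ?_
  exact ((PF1.TT_head l I).mul (PF1.TT_head l _)).mul (PF1.const _)

lemma PF1.CC_head (l : List ℚ) : PF1 (fun z => CC (z :: l)) := by
  unfold CC
  exact (PF1.listprod l _ fun w _ => (PF1.hh_left w).mul (PF1.hh_right w)).mul (PF1.const _)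

/-- Theorem X for all lists of parameters. -/
theorem thmX_all (y : ℚ) (U : Finset ℚ) (hy : y ≠ 0) (hyU : y ∉ U) (hsU : sg y ∉ U) :
    ∀ (b g : List ℚ), (∀ w ∈ g, w ≠ 0 ∧ w ≠ 1 ∧ w ∉ U ∧ NR y w) → g.Pairwise NR →
      1 ≤ (b ++ g).length → U.card + 1 = 2 * (b ++ g).length → XX (b ++ g) y U
  | [], g, hg, hp, h1, hU => by
    rw [List.nil_append] at *
    exact thmX (g.length - 1) g y U (by omega) hy hg hp hyU hsU hU
  | z :: b, g, hg, hp, h1, hU => by
    have hlen : ∀ z : ℚ, (z :: (b ++ g)).length = b.length + g.length + 1 := by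
      intro z; simp
    have key : ∀ z, ff (z :: (b ++ g)) y U =
        CC (z :: (b ++ g)) * (y ^ (b.length + g.length) * ZZ (insert (sg y) U)) := by
      refine PF1.eq_of_eventually (PF1.ff_head _ _ _) ((PF1.CC_head _).mul (PF1.const _)) ?_
      have hgf : ∀ᶠ x in Filter.cofinite, ∀ w ∈ g, NR x w := by
        have : ∀ w ∈ g.toFinset, ∀ᶠ x in Filter.cofinite, NR x w := by
          intro w _
          filter_upwards [Filter.eventually_cofinite_ne w, Filter.eventually_cofinite_ne (sg w),
            Filter.eventually_cofinite_ne (tt w)] with x h1 h2 h3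
          exact ⟨h1, h2, h3⟩
        filter_upwards [(Finset.eventually_all g.toFinset).2 this] with x hx w hw
        exact hx w (List.mem_toFinset.2 hw)
      filter_upwards [Filter.eventually_cofinite_ne (0 : ℚ), Filter.eventually_cofinite_ne (1 : ℚ),
        Finset.eventually_cofinite_notMem U, Filter.eventually_cofinite_ne y,
        Filter.eventually_cofinite_ne (sg y), Filter.eventually_cofinite_ne (tt y),
        hgf] with x k1 k2 k3 k4 k5 k6 k7
      have hNy : NR y x := NR.symm ⟨k4, k5, k6⟩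
      have hl : (b ++ x :: g).length = b.length + g.length + 1 := by
        simp; omega
      have ih := thmX_all y U hy hyU hsU b (x :: g) (by
          intro w hw
          rw [List.mem_cons] at hw
          rcases hw with rfl | hw
          · exact ⟨k1, k2, k3, hNy⟩
          · exact hg w hw) (List.pairwise_cons.2 ⟨k7, hp⟩) (by omega)
          (by rw [hU, hl, List.cons_append, hlen])
      have ih2 := XX_perm List.perm_middle ih
      unfold XX at ih2
      rw [ih2, hlen, Nat.add_sub_cancel, mul_assoc]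
    unfold XX
    rw [List.cons_append, key, hlen, Nat.add_sub_cancel, mul_assoc]

lemma CC_ones (n : ℕ) : CC (List.replicate n 1) = 1 := by
  induction n with
  | zero => rfl
  | succ n ih =>
    rw [List.replicate_succ, CC, ih, List.map_replicate, List.prod_replicate]
    norm_num [hh]

/-- Abbreviation: all parameters equal to one. -/
def ones (n : ℕ) : List ℚ := List.replicate n 1

@[simp] lemma ones_length (n : ℕ) : (ones n).length = n := List.length_replicate

lemma ones_succ (n : ℕ) : ones (n + 1) = 1 :: ones n := rfl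

lemma map_hh_ones (x : ℚ) (n : ℕ) : ((ones n).map (fun w => hh x w)).prod = 1 := by
  rw [ones, List.map_replicate, List.prod_replicate]
  norm_num [hh]

lemma TT_ones_zero (n : ℕ) (J : Finset ℚ) (hJ : (0 : ℚ) ∉ J) :
    TT (ones (n + 1)) (insert 0 J) = TT (ones n) J := by
  rw [ones_succ, TT, st, Finset.sum_eq_single_of_mem 0 (Finset.mem_insert_self _ _)]
  · rw [Finset.erase_insert hJ, map_hh_ones]
    have : (∏ y ∈ J, gg 0 y) * ∏ y ∈ J, hh 1 y = 1 := by
      rw [← Finset.prod_mul_distrib]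
      refine Finset.prod_eq_one fun y hy => ?_
      have hy0 : y ≠ 0 := fun h => hJ (h ▸ hy)
      unfold gg hh
      field_simp
      ring
    linear_combination TT (ones n) J * this
  · intro x _ hx
    rw [Finset.prod_eq_zero (Finset.mem_erase.2 ⟨hx.symm, Finset.mem_insert_self _ _⟩)
      (by norm_num [hh] : hh 1 0 = 0)]
    ring

/-- The right hand side as a function of `y`. -/
def Ttil (y : ℚ) (b : List ℚ) (A : Finset ℚ) : ℚ :=
  st (fun x => (b.map (fun w => hh x w)).prod) (fun V => (∏ r ∈ V, hh r y) * TT b V) A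

lemma Ttil_eq (y : ℚ) (hy : y ≠ 0) (b : List ℚ) (A : Finset ℚ) :
    y ^ b.length * TT (sg y :: b) A = Ttil y b A := by
  rw [TT, Ttil, ← st_smul_right]
  refine st_congr (fun _ _ => rfl) fun x _ => ?_
  by_cases hc : (A.erase x).card = b.length
  · rw [← hc, ← mul_assoc, ← Finset.prod_const, ← Finset.prod_mul_distrib]
    congr 1
    refine Finset.prod_congr rfl fun r _ => ?_
    unfold hh sg
    field_simp
    ring
  · rw [TT_card _ _ hc]; ring

/-- The main identity before specialising an element to one. -/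
theorem main_id (n : ℕ) (b : List ℚ) (A : Finset ℚ) (hb : b.Nodup) (hbl : b.length = n)
    (hA : A.card = n + 1) (hd : Disjoint b.toFinset A) (h0b : (0 : ℚ) ∉ b) (h0A : (0 : ℚ) ∉ A) :
    sh (TT (ones (n + 1))) (TT (ones n)) (b.toFinset ∪ A) = Ttil 0 b A := by
  set U := b.toFinset ∪ A with hU
  have h0U : (0 : ℚ) ∉ U := by
    rw [hU, Finset.mem_union, List.mem_toFinset, not_or]; exact ⟨h0b, h0A⟩
  have hUc : U.card = 2 * n + 1 := by
    rw [hU, Finset.card_union_of_disjoint hd, List.toFinset_card_of_nodup hb, hbl, hA]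
    omega
  -- the two sides are polynomials in `y`
  have hL : ∃ p : ℚ[X], ∀ y, y ∉ U → ff (ones (n + 1)) y U = p.eval y := by
    have h1 : ∀ J : Finset ℚ, ∃ p : ℚ[X], ∀ y, y ∉ J → TT (ones (n + 1)) (insert y J) = p.eval y := by
      intro J
      obtain ⟨p, _, hp⟩ := TT_isPol (ones (n + 1)) J (by simp)
      exact ⟨p, fun y hy => hp y hy (by simp)⟩
    choose p hp using h1
    refine ⟨∑ I ∈ U.powerset, C (TT (ones (n + 1)) I) * p (U \ I) *
      C (∏ i ∈ I, ∏ j ∈ U \ I, gg i j), fun y hy => ?_⟩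
    unfold ff sh
    rw [eval_finsetSum]
    refine Finset.sum_congr rfl fun I _ => ?_
    beta_reduce
    rw [eval_mul, eval_mul, eval_C, eval_C, hp _ y fun h => hy (Finset.mem_sdiff.1 h).1]
  have hR : PF1 (fun y => Ttil y b A) := by
    unfold Ttil st
    refine PF1.sum _ _ fun x _ => ?_
    exact (PF1.const _).mul ((PF1.prod _ _ fun r _ => PF1.hh_right r).mul (PF1.const _))
  obtain ⟨p, hp⟩ := hL
  obtain ⟨q, hq⟩ := hR
  have hpq : p = q := by
    refine poly_eq_of_eventually ?_
    filter_upwards [Filter.eventually_cofinite_ne (0 : ℚ), Finset.eventually_cofinite_notMem U,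
      sg_injective.tendsto_cofinite.eventually (Finset.eventually_cofinite_notMem U)]
      with y h1 h2 h3
    rw [← hp y h2, ← hq]
    have hX := thmX_all y U h1 h2 h3 (ones (n + 1)) [] (by simp) List.Pairwise.nil
      (by simp) (by simp [hUc]; ring)
    unfold XX at hX
    rw [List.append_nil] at hX
    rw [hX, ones, CC_ones, List.length_replicate, Nat.add_sub_cancel, one_mul]
    beta_reduce
    rw [← Ttil_eq y h1, hbl]
    congr 1
    have h4 : insert (sg y) U = (sg y :: b).toFinset ∪ A := by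
      rw [List.toFinset_cons, Finset.insert_union]
    have h5 : sg y ∉ b := fun h => h3 (Finset.mem_union_left _ (List.mem_toFinset.2 h))
    have h6 : sg y ∉ A := fun h => h3 (Finset.mem_union_right _ h)
    rw [h4, ZZ_eq_list _ (List.nodup_cons.2 ⟨h5, hb⟩)]
    · rw [List.toFinset_cons, Finset.disjoint_insert_left]
      exact ⟨h6, hd⟩
    · rw [List.length_cons, hbl, hA]
  have hq0 : Ttil 0 b A = q.eval 0 := hq 0
  rw [hq0, ← hpq, ← hp 0 h0U]
  unfold ff
  symm
  refine sh_congr (fun _ _ => rfl) fun J hJ => ?_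
  exact TT_ones_zero n J fun h => h0U (hJ h)

lemma Ttil_one (b : List ℚ) (A : Finset ℚ) (hA : (1 : ℚ) ∉ A) :
    Ttil 0 b (insert 1 A) = b.prod * (∏ r ∈ A, (- r)) * TT b A := by
  unfold Ttil
  rw [st, Finset.sum_eq_single_of_mem 1 (Finset.mem_insert_self _ _)]
  · rw [Finset.erase_insert hA]
    have h1 : (b.map (fun w => hh 1 w)).prod = b.prod := by
      congr 1
      conv_rhs => rw [← List.map_id b]
      apply List.map_congr_left
      intro w _
      simp [hh]
    have h2 : (∏ y ∈ A, gg 1 y) * ∏ r ∈ A, hh r 0 = ∏ r ∈ A, (-r) := by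
      rw [← Finset.prod_mul_distrib]
      refine Finset.prod_congr rfl fun y hy => ?_
      have hy0 : y - 1 ≠ 0 := sub_ne_zero.2 fun h => hA (h ▸ hy)
      unfold gg hh
      field_simp
      ring
    rw [h1]
    linear_combination b.prod * TT b A * h2
  · intro x _ hx
    have h10 : hh 1 0 = 0 := by norm_num [hh]
    have h3 : ∏ r ∈ (insert 1 A).erase x, hh r 0 = 0 :=
      Finset.prod_eq_zero (Finset.mem_erase.2 ⟨hx.symm, Finset.mem_insert_self _ _⟩) h10
    rw [h3]
    ring

end Helper79
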