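import Pool.Agent.Helper79.Row

set_option autoImplicit false

namespace Helper79

open Finset

/-- Polynomial functions of natural numbers. -/
def PolyF {σ : Type} (f : (σ → ℕ) → ℚ) : Prop :=
  ∃ P : MvPolynomial σ ℚ, ∀ e, f e = MvPolynomial.eval (fun i => (e i : ℚ)) P

lemma PolyF.const {σ : Type} (c : ℚ) : PolyF (fun _ : σ → ℕ => c) :=
  ⟨MvPolynomial.C c, fun e => by simp⟩

lemma PolyF.var {σ : Type} (i : σ) : PolyF (fun e : σ → ℕ => (e i : ℚ)) :=
  ⟨MvPolynomial.X i, fun e => by simp⟩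

lemma PolyF.add {σ : Type} {f g : (σ → ℕ) → ℚ} (hf : PolyF f) (hg : PolyF g) :
    PolyF (fun e => f e + g e) := by
  obtain ⟨P, hP⟩ := hf
  obtain ⟨Q, hQ⟩ := hg
  exact ⟨P + Q, fun e => by beta_reduce; rw [hP, hQ, map_add]⟩

lemma PolyF.sub {σ : Type} {f g : (σ → ℕ) → ℚ} (hf : PolyF f) (hg : PolyF g) :
    PolyF (fun e => f e - g e) := by
  obtain ⟨P, hP⟩ := hf
  obtain ⟨Q, hQ⟩ := hg
  exact ⟨P - Q, fun e => by beta_reduce; rw [hP, hQ, map_sub]⟩

lemma eval_bind {σ τ : Type} (e : σ → ℚ) (Q : τ → MvPolynomial σ ℚ) (P : MvPolynomial τ ℚ) :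
    MvPolynomial.eval e (MvPolynomial.bind₁ Q P) =
      MvPolynomial.eval (fun i => MvPolynomial.eval e (Q i)) P := by
  have := MvPolynomial.eval₂Hom_bind₁ (RingHom.id ℚ) e Q P
  exact this

lemma PolyF.subst {σ τ : Type} {f : (τ → ℕ) → ℚ} (hf : PolyF f) (g : (σ → ℕ) → (τ → ℕ))
    (hg : ∀ i, PolyF (fun e => (g e i : ℚ))) : PolyF (fun e => f (g e)) := by
  obtain ⟨P, hP⟩ := hf
  choose Q hQ using hg
  refine ⟨MvPolynomial.bind₁ Q P, fun e => ?_⟩
  beta_reduce
  rw [hP, eval_bind]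
  congr 2
  funext i
  exact hQ i e

lemma eval_aeval_X {τ : Type} (g : τ → ℚ) (v : τ) (B : Polynomial ℚ) :
    MvPolynomial.eval g (Polynomial.aeval (MvPolynomial.X v) B) = Polynomial.eval (g v) B := by
  have h := Polynomial.aeval_algHom_apply (MvPolynomial.aeval g) (MvPolynomial.X v) B
  rw [MvPolynomial.aeval_X] at h
  rw [← Polynomial.coe_aeval_eq_eval, h]
  rfl

lemma sum_poly {τ : Type} [DecidableEq τ] (v : τ) (P : MvPolynomial τ ℚ) :
    ∃ Q : MvPolynomial τ ℚ, ∀ (e : τ → ℚ) (l : ℚ),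
      MvPolynomial.eval (Function.update e v (l + 1)) Q -
        MvPolynomial.eval (Function.update e v l) Q =
      MvPolynomial.eval (Function.update e v l) P := by
  induction P using MvPolynomial.induction_on' with
  | monomial u a =>
    refine ⟨MvPolynomial.C a * (∏ i ∈ u.support.erase v, MvPolynomial.X i ^ u i) *
      (Polynomial.aeval (MvPolynomial.X v) (Polynomial.bernoulli (u v + 1)) *
        MvPolynomial.C (1 / ((u v : ℚ) + 1))), fun e l => ?_⟩
    have hprod : ∀ l : ℚ, ∏ i ∈ u.support.erase v, (Function.update e v l i) ^ u i =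
        ∏ i ∈ u.support.erase v, (e i) ^ u i := by
      intro l
      refine Finset.prod_congr rfl fun i hi => ?_
      rw [Function.update_of_ne (Finset.ne_of_mem_erase hi)]
    have hR : MvPolynomial.eval (Function.update e v l) (MvPolynomial.monomial u a) =
        a * ((∏ i ∈ u.support.erase v, (e i) ^ u i) * l ^ u v) := by
      rw [MvPolynomial.eval_monomial, Finsupp.prod, ← hprod l]
      congr 1
      by_cases hv : v ∈ u.support
      · rw [← Finset.mul_prod_erase u.support _ hv, Function.update_self]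
        ring
      · rw [Finset.erase_eq_of_notMem hv, Finsupp.notMem_support_iff.1 hv, pow_zero, mul_one]
    rw [hR]
    simp only [map_mul, MvPolynomial.eval_C, MvPolynomial.eval_prod, map_pow,
      MvPolynomial.eval_X, hprod, eval_aeval_X, Function.update_self]
    have hb := Polynomial.bernoulli_eval_one_add (u v + 1) l
    rw [add_comm 1 l, Nat.add_sub_cancel] at hb
    have hne : ((u v : ℚ) + 1) ≠ 0 := by positivity
    rw [hb]
    push_cast
    field_simp
    ring
  | add p q hp hq =>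
    obtain ⟨Q1, h1⟩ := hp
    obtain ⟨Q2, h2⟩ := hq
    refine ⟨Q1 + Q2, fun e l => ?_⟩
    rw [map_add, map_add, map_add, ← h1, ← h2]
    ring

lemma PolyF.sum {τ : Type} [DecidableEq τ] (v : τ) {f : (τ → ℕ) → ℚ} (hf : PolyF f) :
    ∃ F : (τ → ℕ) → ℚ, PolyF F ∧ ∀ (e : τ → ℕ) (k a : ℕ),
      ∑ l ∈ Finset.Ico k a, f (Function.update e v l) -
        ∑ l ∈ Finset.Ico a k, f (Function.update e v l) =
        F (Function.update e v a) - F (Function.update e v k) := by
  obtain ⟨P, hP⟩ := hf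
  obtain ⟨Q, hQ⟩ := sum_poly v P
  refine ⟨fun e => MvPolynomial.eval (fun i => (e i : ℚ)) Q, ⟨Q, fun e => rfl⟩, ?_⟩
  intro e k a
  have hup : ∀ l : ℕ, (fun i => ((Function.update e v l) i : ℚ)) =
      Function.update (fun i => (e i : ℚ)) v (l : ℚ) := by
    intro l
    funext i
    by_cases h : i = v
    · subst h; simp
    · simp [Function.update_of_ne h]
  have hstep : ∀ l : ℕ, f (Function.update e v l) =
      MvPolynomial.eval (Function.update (fun i => (e i : ℚ)) v ((l + 1 : ℕ) : ℚ)) Q -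
      MvPolynomial.eval (Function.update (fun i => (e i : ℚ)) v (l : ℚ)) Q := by
    intro l
    rw [hP, hup]
    push_cast
    rw [hQ]
  simp only [hup]
  simp_rw [hstep]
  rcases le_total k a with h | h
  · rw [Finset.Ico_eq_empty_of_le h, Finset.sum_empty, sub_zero]
    exact Finset.sum_Ico_sub (fun l : ℕ =>
      MvPolynomial.eval (Function.update (fun i => (e i : ℚ)) v (l : ℚ)) Q) h
  · rw [Finset.Ico_eq_empty_of_le h, Finset.sum_empty, zero_sub]
    have := Finset.sum_Ico_sub (fun l : ℕ =>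
      MvPolynomial.eval (Function.update (fun i => (e i : ℚ)) v (l : ℚ)) Q) h
    rw [this]
    ring

/-- Functional form of the row sum. -/
noncomputable def Rf : ℕ → List ℕ → (List ℕ → ℚ) → ℚ
  | _, [], φ => φ []
  | k, a :: w, φ => ∑ l ∈ Finset.Ico k a, Rf a w (fun t => φ (l :: t)) -
      ∑ l ∈ Finset.Ico a k, Rf a w (fun t => φ (l :: t)) + Rf (a + 1) w (fun t => φ (a :: t))

lemma Rf_eq : ∀ (w : List ℕ) (k : ℕ) (L : WM →ₗ[ℚ] ℚ),
    L (Rr k w) = Rf k w (fun t => L (Finsupp.single t 1))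
  | [], k, L => rfl
  | a :: w, k, L => by
    have h : ∀ (c l : ℕ), L (consM l (Rr c w)) = Rf c w (fun t => L (Finsupp.single (l :: t) 1)) := by
      intro c l
      have := Rf_eq w c (L ∘ₗ consM l)
      simp only [LinearMap.comp_apply, consM_single] at this
      exact this
    rw [Rr, map_add, map_sub, map_sum, map_sum, Rf]
    simp_rw [h]

lemma Rf_congr : ∀ (w : List ℕ) (k : ℕ) (φ φ' : List ℕ → ℚ),
    (∀ t : List ℕ, t.length = w.length → φ t = φ' t) → Rf k w φ = Rf k w φ'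
  | [], k, φ, φ', h => h [] rfl
  | a :: w, k, φ, φ', h => by
    have h1 : ∀ (c l : ℕ), Rf c w (fun t => φ (l :: t)) = Rf c w (fun t => φ' (l :: t)) := by
      intro c l
      refine Rf_congr w c _ _ fun t ht => h _ ?_
      rw [List.length_cons, List.length_cons, ht]
    rw [Rf, Rf, h1]
    simp_rw [h1]

lemma alW_nil : alW [] = 1 := by
  unfold alW
  simp

lemma alW_cons (k : ℕ) (w : List ℕ) : alW (k :: w) = Rf k w alW := by
  unfold alW
  rw [List.length_cons, pow_succ, Module.End.mul_apply, RL_single, one_smul, Row]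
  have := Rf_eq w k ((Finsupp.lapply []) ∘ₗ (RL ^ w.length : WM →ₗ[ℚ] WM))
  simp only [LinearMap.comp_apply, Finsupp.lapply_apply] at this
  rw [this]
  refine Rf_congr w k _ _ fun t ht => ?_
  rw [ht]

/-- The list of the first `n` values. -/
def toL (n : ℕ) (t : ℕ → ℕ) : List ℕ := (List.range n).map t

lemma toL_zero (t : ℕ → ℕ) : toL 0 t = [] := rfl

lemma toL_succ (n : ℕ) (t : ℕ → ℕ) : toL (n + 1) t = t 0 :: toL n (fun i => t (i + 1)) := by
  unfold toL
  rw [List.range_succ_eq_map, List.map_cons, List.map_map]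
  rfl

lemma toL_length (n : ℕ) (t : ℕ → ℕ) : (toL n t).length = n := by simp [toL]

/-- The environment for the inner sum. -/
def envL (a : ℕ) (l : ℕ) (ρ : ℕ ⊕ ℕ → ℕ) : ℕ ⊕ ℕ → ℕ
  | Sum.inl 0 => l
  | Sum.inl (i + 1) => ρ (Sum.inl i)
  | Sum.inr 0 => a
  | Sum.inr (i + 1) => ρ (Sum.inr (i + 2))

lemma Rf_poly : ∀ (n : ℕ) (Φ : (ℕ → ℕ) → List ℕ → ℚ),
    PolyF (fun ρ : ℕ ⊕ ℕ → ℕ => Φ (fun i => ρ (Sum.inl i)) (toL n (fun i => ρ (Sum.inr i)))) →
    PolyF (fun ρ : ℕ ⊕ ℕ → ℕ => Rf (ρ (Sum.inr 0)) (toL n (fun i => ρ (Sum.inr (i + 1))))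
      (Φ (fun i => ρ (Sum.inl i))))
  | 0, Φ, h => by
    exact h
  | n + 1, Φ, h => by
    set Ψ : (ℕ → ℕ) → List ℕ → ℚ := fun e t => Φ (fun i => e (i + 1)) (e 0 :: t) with hΨ
    have hΨp : PolyF (fun ρ : ℕ ⊕ ℕ → ℕ =>
        Ψ (fun i => ρ (Sum.inl i)) (toL n (fun i => ρ (Sum.inr i)))) := by
      have := PolyF.subst h (fun ρ : ℕ ⊕ ℕ → ℕ => fun x : ℕ ⊕ ℕ => match x with
        | Sum.inl i => ρ (Sum.inl (i + 1))
        | Sum.inr 0 => ρ (Sum.inl 0)
        | Sum.inr (i + 1) => ρ (Sum.inr i)) (by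
          rintro (i | i)
          · exact PolyF.var _
          · cases i
            · exact PolyF.var _
            · exact PolyF.var _)
      simp only [toL_succ] at this
      exact this
    have ih := Rf_poly n Ψ hΨp
    set G : (ℕ ⊕ ℕ → ℕ) → ℚ := fun ρ => Rf (ρ (Sum.inr 0)) (toL n (fun i => ρ (Sum.inr (i + 1))))
      (Ψ (fun i => ρ (Sum.inl i))) with hG
    obtain ⟨F, hF, hFs⟩ := PolyF.sum (Sum.inl 0) ih
    have hupd : ∀ (a l l' : ℕ) (ρ : ℕ ⊕ ℕ → ℕ),
        Function.update (envL a l ρ) (Sum.inl 0) l' = envL a l' ρ := by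
      intro a l l' ρ
      funext x
      rcases x with (i | i)
      · cases i with
        | zero => simp [envL]
        | succ i => rw [Function.update_of_ne (by simp)]; rfl
      · rw [Function.update_of_ne (by simp)]
        cases i <;> rfl
    have henv : ∀ (a l : ℕ) (ρ : ℕ ⊕ ℕ → ℕ), G (envL a l ρ) =
        Rf a (toL n (fun i => ρ (Sum.inr (i + 2))))
          (fun t => Φ (fun i => ρ (Sum.inl i)) (l :: t)) := by
      intro a l ρ
      rfl
    have hval : ∀ ρ : ℕ ⊕ ℕ → ℕ, Rf (ρ (Sum.inr 0)) (toL (n + 1) (fun i => ρ (Sum.inr (i + 1))))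
        (Φ (fun i => ρ (Sum.inl i))) =
        F (envL (ρ (Sum.inr 1)) (ρ (Sum.inr 1)) ρ) - F (envL (ρ (Sum.inr 1)) (ρ (Sum.inr 0)) ρ) +
          G (envL (ρ (Sum.inr 1) + 1) (ρ (Sum.inr 1)) ρ) := by
      intro ρ
      have h1 := hFs (envL (ρ (Sum.inr 1)) 0 ρ) (ρ (Sum.inr 0)) (ρ (Sum.inr 1))
      simp only [hupd] at h1
      rw [← h1]
      rw [toL_succ, Rf, henv]
      have hG' : ∀ l, G (envL (ρ (Sum.inr 1)) l ρ) = Rf (ρ (Sum.inr 1))
          (toL n (fun i => ρ (Sum.inr (i + 2))))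
          (fun t => Φ (fun i => ρ (Sum.inl i)) (l :: t)) := fun l => henv _ _ _
      simp only [hG']
    have hfin : PolyF (fun ρ : ℕ ⊕ ℕ → ℕ =>
        F (envL (ρ (Sum.inr 1)) (ρ (Sum.inr 1)) ρ) - F (envL (ρ (Sum.inr 1)) (ρ (Sum.inr 0)) ρ) +
          G (envL (ρ (Sum.inr 1) + 1) (ρ (Sum.inr 1)) ρ)) := by
      refine PolyF.add (PolyF.sub (PolyF.subst hF _ ?_) (PolyF.subst hF _ ?_))
        (PolyF.subst ih _ ?_)
      · rintro (i | i) <;> cases i <;> exact PolyF.var _
      · rintro (i | i) <;> cases i <;> exact PolyF.var _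
      · rintro (i | i)
        · cases i <;> exact PolyF.var _
        · cases i with
          | zero =>
            have h1 := PolyF.add (PolyF.var (Sum.inr 1 : ℕ ⊕ ℕ)) (PolyF.const 1)
            obtain ⟨P, hP⟩ := h1
            refine ⟨P, fun e => ?_⟩
            rw [← hP e]
            simp [envL]
          | succ i => exact PolyF.var _
    obtain ⟨P, hP⟩ := hfin
    refine ⟨P, fun ρ => ?_⟩
    rw [← hP ρ]
    exact hval ρ

lemma alW_poly (n : ℕ) : PolyF (fun t : ℕ → ℕ => alW (toL n t)) := by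
  induction n with
  | zero =>
    simp only [toL_zero]
    exact PolyF.const _
  | succ n ih =>
    have h1 : PolyF (fun ρ : ℕ ⊕ ℕ → ℕ => alW (toL n (fun i => ρ (Sum.inr i)))) :=
      PolyF.subst ih (fun ρ i => ρ (Sum.inr i)) fun i => PolyF.var _
    have h2 := Rf_poly n (fun _ => alW) h1
    have h3 := PolyF.subst h2 (fun t : ℕ → ℕ => Sum.elim (fun _ => 0) t) (by
      rintro (i | i)
      · simpa using PolyF.const 0
      · exact PolyF.var _)
    simp only [Sum.elim_inr] at h3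
    simp_rw [toL_succ, alW_cons]
    exact h3

/-- The polynomial of extended monotone triangle numbers. -/
lemma alW_mvpoly (n : ℕ) : ∃ P : MvPolynomial (Fin n) ℚ, ∀ w : Fin n → ℕ,
    alW (List.ofFn w) = MvPolynomial.eval (fun i => (w i : ℚ)) P := by
  have h1 := PolyF.subst (alW_poly n)
    (fun w : Fin n → ℕ => fun i => if h : i < n then w ⟨i, h⟩ else 0) (by
      intro i
      by_cases h : i < n
      · simp only [h, dite_true]; exact PolyF.var _
      · simp only [h, dite_false]; simpa using PolyF.const 0)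
  obtain ⟨P, hP⟩ := h1
  refine ⟨P, fun w => ?_⟩
  rw [← hP w]
  congr 1
  unfold toL
  apply List.ext_getElem
  · simp
  · intro i h1 h2
    have h3 : i < n := by simpa using h1
    simp [h3]

end Helper79
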