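import Pool.Agent.Helper79.MainId

set_option autoImplicit false

namespace Helper79

open Finset Polynomial

/-- The symmetrised word functions. -/
def SS (w : List ℕ) : Finset ℚ → ℚ := starL (w.map (fun k x => x ^ k)) e0

lemma SS_cons (k : ℕ) (w : List ℕ) : SS (k :: w) = st (fun x => x ^ k) (SS w) := rfl

lemma prod_mul_SS (w : List ℕ) (V : Finset ℚ) :
    (∏ y ∈ V, y) * SS w V = SS (w.map Nat.succ) V := by
  unfold SS
  rw [prod_mul_starL (fun y => y), prod_mul_e0, List.map_map, List.map_map]
  congr 1
  refine List.map_congr_left fun k _ => ?_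
  funext x
  simp only [Function.comp_apply, pow_succ]

lemma TT_ones_eq (m : ℕ) : TT (ones m) = SS (List.range m) := by
  induction m with
  | zero => rfl
  | succ m ih =>
    funext U
    rw [ones_succ, TT, List.range_succ_eq_map, SS_cons]
    refine st_congr (fun x _ => ?_) (fun x _ => ?_)
    · rw [map_hh_ones, pow_zero]
    · rw [ih, ← prod_mul_SS]
      congr 1
      refine Finset.prod_congr rfl fun y _ => ?_
      simp [hh]

lemma sh_SS (w w' : List ℕ) : sh (SS w) (SS w') = SS (w ++ w') := by
  unfold SS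
  rw [sh_starL, List.map_append, starL_append]

lemma SS_isPol (w : List ℕ) : IsPol (w.sum + 1) ∅ (SS w) := by
  unfold SS
  refine IsPol.starL ?_ ((isPol_e0 ∅).mono (Nat.zero_le _) le_rfl)
  intro F hF
  rw [List.mem_map] at hF
  obtain ⟨k, hk, rfl⟩ := hF
  refine ⟨X ^ k, ?_, fun x => by simp⟩
  rw [mem_degreeLT, degree_X_pow]
  have := List.single_le_sum (l := w) (by simp) k hk
  exact_mod_cast Nat.lt_succ_of_le this

/-- Free module of words. -/
abbrev WM := List ℕ →₀ ℚ

/-- Linear extension of `SS`. -/
noncomputable def SL (U : Finset ℚ) : WM →ₗ[ℚ] ℚ := Finsupp.linearCombination ℚ (fun w => SS w U)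

@[simp] lemma SL_single (U : Finset ℚ) (w : List ℕ) (a : ℚ) :
    SL U (Finsupp.single w a) = a * SS w U := by
  simp [SL]

lemma SL_isPol (c : WM) : ∃ D, IsPol D ∅ (fun U => SL U c) := by
  induction c using Finsupp.induction_linear with
  | zero => exact ⟨0, fun V _ => ⟨0, Submodule.zero_mem _, fun z _ _ => by simp⟩⟩
  | add f g hf hg =>
    obtain ⟨D, hD⟩ := hf
    obtain ⟨D', hD'⟩ := hg
    refine ⟨max D D', ?_⟩
    have := (hD.mono (le_max_left D D') le_rfl).add (hD'.mono (le_max_right D D') le_rfl)
    simpa only [map_add] using this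
  | single w a =>
    refine ⟨w.sum + 1, ?_⟩
    have := (SS_isPol w).const_mul a
    simpa only [SL_single] using this

lemma SL_empty (c : WM) : SL ∅ c = c [] := by
  induction c using Finsupp.induction_linear with
  | zero => simp
  | add f g hf hg => simp [hf, hg]
  | single w a =>
    rw [SL_single]
    cases w with
    | nil => simp [SS, e0]
    | cons k w => simp [SS_cons, st_empty]

/-- Prepending a letter. -/
noncomputable def consM (l : ℕ) : WM →ₗ[ℚ] WM := Finsupp.lmapDomain ℚ ℚ (List.cons l)

@[simp] lemma consM_single (l : ℕ) (w : List ℕ) (a : ℚ) :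
    consM l (Finsupp.single w a) = Finsupp.single (l :: w) a := by
  simp [consM]

lemma SL_consM (l : ℕ) (c : WM) (U : Finset ℚ) :
    SL U (consM l c) = st (fun x => x ^ l) (fun V => SL V c) U := by
  induction c using Finsupp.induction_linear with
  | zero =>
    simp only [map_zero]
    unfold st
    simp
  | add f g hf hg =>
    simp only [map_add]
    rw [hf, hg, st_add_right]
  | single w a =>
    rw [consM_single, SL_single, SS_cons]
    simp only [SL_single]
    rw [st_smul_right]

/-- The rows below a given row, with the first entry at least `k`. -/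
noncomputable def Rr : ℕ → List ℕ → WM
  | _, [] => Finsupp.single [] 1
  | k, a :: w => ∑ l ∈ Finset.Ico k a, consM l (Rr a w) - ∑ l ∈ Finset.Ico a k, consM l (Rr a w) +
      consM a (Rr (a + 1) w)

/-- The rows below a given row. -/
noncomputable def Row : List ℕ → WM
  | [] => 0
  | k :: w => Rr k w

/-- Linear extension of `Row`. -/
noncomputable def RL : WM →ₗ[ℚ] WM := Finsupp.linearCombination ℚ Row

@[simp] lemma RL_single (w : List ℕ) (a : ℚ) : RL (Finsupp.single w a) = a • Row w := by
  simp [RL]

/-- The letter function `x^k/(1-x)`. -/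
def br (k : ℕ) (x : ℚ) : ℚ := x ^ k / (1 - x)

/-- The words after the position of the element `1`. -/
def NN (w : List ℕ) : Finset ℚ → ℚ := starL (w.map (fun k x => x ^ k * (x / (x - 1)))) e0

/-- The value of a word function at a set containing `1`. -/
def EE : ℕ → List ℕ → Finset ℚ → ℚ
  | _, [] => e0
  | k, a :: w => fun U => NN (a :: w) U + st (br k) (EE a w) U

lemma prod_mul_SS' (w : List ℕ) (V : Finset ℚ) :
    (∏ y ∈ V, (y / (y - 1))) * SS w V = NN w V := by
  unfold SS NN
  rw [prod_mul_starL (fun y => y / (y - 1)), prod_mul_e0, List.map_map]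
  rfl

lemma SS_insert_one : ∀ (w : List ℕ) (k : ℕ) (U : Finset ℚ), (1 : ℚ) ∉ U →
    SS (k :: w) (insert 1 U) = EE k w U := by
  have gen : ∀ (w : List ℕ) (k : ℕ) (U : Finset ℚ), (1 : ℚ) ∉ U →
      SS (k :: w) (insert 1 U) = NN w U + st (br k) (fun V => SS w (insert 1 V)) U := by
    intro w k U hU
    rw [SS_cons, st, Finset.sum_insert hU, Finset.erase_insert hU, one_pow, one_mul]
    congr 1
    · rw [← prod_mul_SS']
      congr 1
      refine Finset.prod_congr rfl fun y _ => ?_
      unfold gg hh
      congr 1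
      ring
    · unfold st
      refine Finset.sum_congr rfl fun x hx => ?_
      have hx1 : (1 : ℚ) ≠ x := fun h => hU (h ▸ hx)
      have h1 : (1 : ℚ) ∉ U.erase x := fun h => hU (Finset.mem_of_mem_erase h)
      rw [Finset.erase_insert_of_ne hx1, Finset.prod_insert h1]
      have : gg x 1 = 1 / (1 - x) := by
        unfold gg hh
        congr 1
        ring
      rw [this]
      unfold br
      ring
  intro w
  induction w with
  | nil =>
    intro k U hU
    rw [gen [] k U hU, EE]
    have : (fun V : Finset ℚ => SS [] (insert 1 V)) = fun _ => 0 := by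
      funext V
      simp [SS, e0]
    rw [this]
    simp [st, NN]
  | cons a w ih =>
    intro k U hU
    rw [gen _ k U hU, EE]
    congr 1
    refine st_congr (fun _ _ => rfl) fun x _ => ?_
    exact ih a _ fun h => hU (Finset.mem_of_mem_erase h)

lemma NN_rel (a : ℕ) (w : List ℕ) (U : Finset ℚ) (hU : (1 : ℚ) ∉ U) :
    NN (a :: w) U = st (fun x => x ^ a) (EE (a + 1) w) U - st (br a) (EE a w) U := by
  have e1 : NN (a :: w) U = st (fun x => x ^ a) (NN w) U - st (br a) (NN w) U := by
    have : NN (a :: w) = st (fun x => x ^ a * (x / (x - 1))) (NN w) := rfl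
    rw [this, sub_eq_add_neg, ← st_neg_left, ← st_add_left]
    refine st_congr (fun x hx => ?_) (fun _ _ => rfl)
    have h1 : x - 1 ≠ 0 := sub_ne_zero.2 fun h => hU (h ▸ hx)
    have h2 : 1 - x = -(x - 1) := by ring
    unfold br
    rw [h2, div_neg]
    field_simp
    ring
  cases w with
  | nil =>
    rw [e1]
    rfl
  | cons b w =>
    have h2 := two_body (F1 := fun x => x ^ a) (G1 := br (a + 1)) (F2 := fun x => - br a x)
      (G2 := br a) (EE b w) U ?_
    · rw [st_neg_left] at h2
      rw [e1]
      have e2 : st (fun x => x ^ a) (EE (a + 1) (b :: w)) U =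
          st (fun x => x ^ a) (NN (b :: w)) U + st (fun x => x ^ a) (st (br (a + 1)) (EE b w)) U :=
        st_add_right _ _ _ _
      have e3 : st (br a) (EE a (b :: w)) U =
          st (br a) (NN (b :: w)) U + st (br a) (st (br a) (EE b w)) U :=
        st_add_right _ _ _ _
      rw [e2, e3]
      linarith
    · intro x hx y hy hxy
      have h1 : 1 - x ≠ 0 := sub_ne_zero.2 fun h => hU (h ▸ hx)
      have h2 : 1 - y ≠ 0 := sub_ne_zero.2 fun h => hU (h ▸ hy)
      have h3 : y - x ≠ 0 := sub_ne_zero.2 hxy.symm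
      have h4 : x - y = -(y - x) := by ring
      unfold br gg hh
      rw [h4, div_neg, pow_succ, pow_succ]
      field_simp
      ring

lemma ext_geom (k a : ℕ) (x : ℚ) (hx : x ≠ 1) :
    ∑ l ∈ Finset.Ico k a, x ^ l - ∑ l ∈ Finset.Ico a k, x ^ l = br k x - br a x := by
  have h1 : x - 1 ≠ 0 := sub_ne_zero.2 hx
  have h2 : 1 - x = -(x - 1) := by ring
  unfold br
  rw [h2, div_neg, div_neg]
  rcases le_total k a with h | h
  · rw [Finset.Ico_eq_empty_of_le h, geom_sum_Ico hx h]
    simp
    ring
  · rw [Finset.Ico_eq_empty_of_le h, geom_sum_Ico hx h]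
    simp
    ring

lemma st_sum_left {ι : Type} (s : Finset ι) (F : ι → ℚ → ℚ) (Q : Finset ℚ → ℚ) (U : Finset ℚ) :
    st (fun x => ∑ i ∈ s, F i x) Q U = ∑ i ∈ s, st (F i) Q U := by
  classical
  induction s using Finset.induction_on with
  | empty => simp [st]
  | insert a s ha ih =>
    simp_rw [Finset.sum_insert ha]
    rw [st_add_left, ih]

lemma EE_eq : ∀ (w : List ℕ) (k : ℕ) (U : Finset ℚ), (1 : ℚ) ∉ U →
    EE k w U = SL U (Rr k w)
  | [], k, U, _ => by
    rw [EE, Rr, SL_single, one_mul]
    rfl
  | a :: w, k, U, hU => by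
    have h1 : ∀ (c : ℕ) (l : ℕ), SL U (consM l (Rr c w)) = st (fun x => x ^ l) (EE c w) U := by
      intro c l
      rw [SL_consM]
      refine st_congr (fun _ _ => rfl) fun x _ => ?_
      exact (EE_eq w c _ fun h => hU (Finset.mem_of_mem_erase h)).symm
    rw [Rr, map_add, map_sub, map_sum, map_sum, h1]
    simp_rw [h1]
    rw [← st_sum_left, ← st_sum_left]
    have h2 : st (fun x => ∑ i ∈ Finset.Ico k a, x ^ i) (EE a w) U -
        st (fun x => ∑ i ∈ Finset.Ico a k, x ^ i) (EE a w) U =
        st (br k) (EE a w) U - st (br a) (EE a w) U := by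
      rw [sub_eq_add_neg, ← st_neg_left, ← st_add_left, sub_eq_add_neg, ← st_neg_left,
        ← st_add_left]
      refine st_congr (fun x hx => ?_) (fun _ _ => rfl)
      have := ext_geom k a x fun h => hU (h ▸ hx)
      linarith
    rw [h2, EE]
    beta_reduce
    rw [NN_rel a w U hU]
    ring

/-- The row recursion. -/
theorem SL_insert_one (c : WM) (U : Finset ℚ) (hU : (1 : ℚ) ∉ U) :
    SL (insert 1 U) c = SL U (RL c) := by
  induction c using Finsupp.induction_linear with
  | zero => simp
  | add f g hf hg => simp only [map_add, hf, hg]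
  | single w a =>
    rw [SL_single, RL_single, map_smul, smul_eq_mul]
    congr 1
    cases w with
    | nil => simp [SS, e0, Row]
    | cons k w => rw [SS_insert_one w k U hU, EE_eq w k U hU, Row]

lemma SL_step (c : WM) (U : Finset ℚ) (hU : (1 : ℚ) ∉ U) {f : ℚ → ℚ} (hf : PF1 f)
    (h : ∀ᶠ z in Filter.cofinite, SL (insert z U) c = f z) : SL U (RL c) = f 1 := by
  rw [← SL_insert_one c U hU]
  obtain ⟨D, hD⟩ := SL_isPol c
  obtain ⟨p, _, hp⟩ := hD U (by simp)
  obtain ⟨q, hq⟩ := hf
  have hpq : p = q := by
    refine poly_eq_of_eventually ?_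
    filter_upwards [h, Finset.eventually_cofinite_notMem U] with z h1 h2
    rw [← hp z h2 (by simp), ← hq, ← h1]
  have := hp 1 hU (by simp)
  beta_reduce at this
  rw [this, hpq, hq]

/-- The kernel of all evaluations. -/
def KK (c : WM) : Prop := ∀ U : Finset ℚ, (0 : ℚ) ∉ U → (1 : ℚ) ∉ U → SL U c = 0

lemma KK_RL {c : WM} (h : KK c) : KK (RL c) := by
  intro U h0 h1
  refine SL_step c U h1 (PF1.const 0) ?_
  filter_upwards [Filter.eventually_cofinite_ne (0 : ℚ), Filter.eventually_cofinite_ne (1 : ℚ)]
    with z k0 k1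
  refine h _ ?_ ?_
  · rw [Finset.mem_insert, not_or]; exact ⟨k0.symm, h0⟩
  · rw [Finset.mem_insert, not_or]; exact ⟨k1.symm, h1⟩

lemma KK_pow {c : WM} (h : KK c) (n : ℕ) : KK ((RL ^ n) c) := by
  induction n with
  | zero => exact h
  | succ n ih =>
    rw [pow_succ', Module.End.mul_apply]
    exact KK_RL ih

lemma KK_nil {c : WM} (h : KK c) (n : ℕ) : ((RL ^ n) c) [] = 0 := by
  rw [← SL_empty]
  exact KK_pow h n ∅ (by simp) (by simp)

/-- Degree bookkeeping. -/
lemma SL_length (w : List ℕ) (k : ℕ) : ∀ (U : Finset ℚ), (0 : ℚ) ∉ U → (1 : ℚ) ∉ U →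
    U.card + k ≠ w.length → SL U ((RL ^ k) (Finsupp.single w 1)) = 0 := by
  induction k with
  | zero =>
    intro U _ _ hc
    rw [pow_zero, Module.End.one_apply, SL_single, one_mul]
    have : ∀ (w : List ℕ) (U : Finset ℚ), U.card ≠ w.length → SS w U = 0 := by
      intro w
      induction w with
      | nil =>
        intro U hc
        have : U ≠ ∅ := fun h => hc (by simp [h])
        simp [SS, e0, this]
      | cons k w ih =>
        intro U hc
        rw [SS_cons, st]
        refine Finset.sum_eq_zero fun x hx => ?_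
        rw [ih, mul_zero]
        intro h
        apply hc
        rw [← Finset.card_erase_add_one hx, h, List.length_cons]
    exact this w U (by simpa using hc)
  | succ k ih =>
    intro U h0 h1 hc
    rw [pow_succ', Module.End.mul_apply]
    refine SL_step _ U h1 (PF1.const 0) ?_
    filter_upwards [Filter.eventually_cofinite_ne (0 : ℚ), Filter.eventually_cofinite_ne (1 : ℚ),
      Finset.eventually_cofinite_notMem U] with z k0 k1 k2
    refine ih _ ?_ ?_ ?_
    · rw [Finset.mem_insert, not_or]; exact ⟨k0.symm, h0⟩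
    · rw [Finset.mem_insert, not_or]; exact ⟨k1.symm, h1⟩
    · rw [Finset.card_insert_of_notMem k2]; omega

/-- The word of the signed evaluation. -/
def bigW (n : ℕ) : List ℕ := List.range (n + 1) ++ List.range n

lemma bigW_length (n : ℕ) : (bigW n).length = 2 * n + 1 := by
  simp [bigW]; ring

lemma PF1.TT_mid (j : ℕ) (b : List ℚ) (A : Finset ℚ) : PF1 (fun z => TT (ones j ++ z :: b) A) := by
  obtain ⟨p, hp⟩ := PF1.TT_head (ones j ++ b) A
  refine ⟨p, fun z => ?_⟩
  have h : (ones j ++ z :: b).Perm (z :: (ones j ++ b)) := List.perm_middle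
  beta_reduce
  rw [TT_perm h]
  exact hp z

lemma claim (n : ℕ) : ∀ (j : ℕ) (b : List ℚ) (A : Finset ℚ), b.Nodup → b.length + j = n →
    A.card = n → Disjoint b.toFinset A → (0 : ℚ) ∉ b → (1 : ℚ) ∉ b → (0 : ℚ) ∉ A → (1 : ℚ) ∉ A →
    SL (b.toFinset ∪ A) ((RL ^ (j + 1)) (Finsupp.single (bigW n) 1)) =
      b.prod * (∏ r ∈ A, (- r)) * TT (ones j ++ b) A := by
  intro j
  induction j with
  | zero =>
    intro b A hb hbl hA hd h0b h1b h0A h1A
    have h1 : (1 : ℚ) ∉ b.toFinset ∪ A := by
      rw [Finset.mem_union, List.mem_toFinset, not_or]; exact ⟨h1b, h1A⟩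
    rw [zero_add, pow_one, ← SL_insert_one _ _ h1, SL_single, one_mul, ← Finset.union_insert]
    have h2 : SS (bigW n) = sh (TT (ones (n + 1))) (TT (ones n)) := by
      rw [TT_ones_eq, TT_ones_eq, sh_SS]; rfl
    rw [h2, main_id n b (insert 1 A) hb (by simpa using hbl)
      (by rw [Finset.card_insert_of_notMem h1A, hA])
      (by rw [Finset.disjoint_insert_right, List.mem_toFinset]; exact ⟨h1b, hd⟩) h0b
      (by rw [Finset.mem_insert, not_or]; exact ⟨by norm_num, h0A⟩), Ttil_one b A h1A]
    rfl
  | succ j ih =>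
    intro b A hb hbl hA hd h0b h1b h0A h1A
    have h1 : (1 : ℚ) ∉ b.toFinset ∪ A := by
      rw [Finset.mem_union, List.mem_toFinset, not_or]; exact ⟨h1b, h1A⟩
    rw [pow_succ', Module.End.mul_apply]
    have hf : PF1 (fun z => (z * b.prod) * (∏ r ∈ A, (- r)) * TT (ones j ++ z :: b) A) :=
      ((PF1.id.mul (PF1.const _)).mul (PF1.const _)).mul (PF1.TT_mid j b A)
    rw [SL_step _ _ h1 hf]
    · beta_reduce
      rw [one_mul]
      congr 1
      have : (ones j ++ 1 :: b).Perm (ones (j + 1) ++ b) := by
        rw [ones_succ]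
        exact List.perm_middle
      rw [TT_perm this]
    · filter_upwards [Filter.eventually_cofinite_ne (0 : ℚ), Filter.eventually_cofinite_ne (1 : ℚ),
        Finset.eventually_cofinite_notMem b.toFinset, Finset.eventually_cofinite_notMem A]
        with z k0 k1 k2 k3
      have := ih (z :: b) A (List.nodup_cons.2 ⟨fun h => k2 (List.mem_toFinset.2 h), hb⟩)
        (by rw [List.length_cons]; omega) hA
        (by rw [List.toFinset_cons, Finset.disjoint_insert_left]; exact ⟨k3, hd⟩)
        (by rw [List.mem_cons, not_or]; exact ⟨k0.symm, h0b⟩)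
        (by rw [List.mem_cons, not_or]; exact ⟨k1.symm, h1b⟩) h0A h1A
      rw [List.toFinset_cons, Finset.insert_union, List.prod_cons] at this
      exact this

/-- The extended number of monotone triangles with bottom row a given word. -/
noncomputable def alW (w : List ℕ) : ℚ := ((RL ^ w.length) (Finsupp.single w 1)) []

/-- The main identity for words. -/
theorem alW_identity (n : ℕ) :
    alW (bigW n) = (-1) ^ n * alW ((List.range n).map Nat.succ) := by
  set w' := (List.range n).map Nat.succ with hw'
  have hlen' : w'.length = n := by simp [hw']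
  have hK : KK ((RL ^ (n + 1)) (Finsupp.single (bigW n) 1) -
      (-1 : ℚ) ^ n • Finsupp.single w' 1) := by
    intro U h0 h1
    rw [map_sub, map_smul, smul_eq_mul]
    by_cases hc : U.card = n
    · have := claim n n [] U List.nodup_nil (by simp) hc (by simp) (by simp) (by simp) h0 h1
      simp only [List.toFinset_nil, Finset.empty_union, List.prod_nil, one_mul,
        List.append_nil] at this
      rw [this, SL_single, one_mul, TT_ones_eq, hw', ← prod_mul_SS, Finset.prod_neg, hc]
      ring
    · rw [SL_length _ _ U h0 h1 (by rw [bigW_length]; omega)]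
      have := SL_length w' 0 U h0 h1 (by rw [hlen']; simpa using hc)
      rw [pow_zero, Module.End.one_apply] at this
      rw [this]
      ring
  have h := KK_nil hK n
  rw [map_sub, map_smul, ← Module.End.mul_apply, ← pow_add] at h
  rw [Finsupp.sub_apply, Finsupp.smul_apply, smul_eq_mul, sub_eq_zero] at h
  unfold alW
  rw [bigW_length, hlen', ← h]
  congr 3
  ring

end Helper79
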