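import Pool.Agent.Helper79.Sym

set_option autoImplicit false

namespace Helper79

open Finset Polynomial

/-- The shuffle product. -/
def sh (P Q : Finset ℚ → ℚ) (U : Finset ℚ) : ℚ :=
  ∑ I ∈ U.powerset, P I * Q (U \ I) * ∏ i ∈ I, ∏ j ∈ U \ I, gg i j

lemma sh_congr {P P' Q Q' : Finset ℚ → ℚ} {U : Finset ℚ} (hP : ∀ I ⊆ U, P I = P' I)
    (hQ : ∀ J ⊆ U, Q J = Q' J) : sh P Q U = sh P' Q' U := by
  unfold sh
  refine Finset.sum_congr rfl fun I hI => ?_
  rw [hP I (Finset.mem_powerset.1 hI), hQ _ Finset.sdiff_subset]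

lemma sh_eq_zero_left {P Q : Finset ℚ → ℚ} {U : Finset ℚ} (hP : ∀ I ⊆ U, P I = 0) :
    sh P Q U = 0 := by
  unfold sh
  refine Finset.sum_eq_zero fun I hI => ?_
  rw [hP I (Finset.mem_powerset.1 hI)]; ring

lemma sh_eq_zero_right {P Q : Finset ℚ → ℚ} {U : Finset ℚ} (hQ : ∀ I ⊆ U, Q I = 0) :
    sh P Q U = 0 := by
  unfold sh
  refine Finset.sum_eq_zero fun I hI => ?_
  rw [hQ _ Finset.sdiff_subset]; ring

lemma sh_smul (c d : ℚ) (P Q : Finset ℚ → ℚ) (U : Finset ℚ) :
    sh (fun I => c * P I) (fun J => d * Q J) U = c * d * sh P Q U := by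
  unfold sh
  rw [Finset.mul_sum]
  refine Finset.sum_congr rfl fun I _ => ?_
  ring

lemma sh_prod (F : ℚ → ℚ) (P Q : Finset ℚ → ℚ) (U : Finset ℚ) :
    sh (fun I => (∏ i ∈ I, F i) * P I) (fun J => (∏ j ∈ J, F j) * Q J) U =
      (∏ u ∈ U, F u) * sh P Q U := by
  unfold sh
  rw [Finset.mul_sum]
  refine Finset.sum_congr rfl fun I hI => ?_
  rw [← Finset.prod_sdiff (Finset.mem_powerset.1 hI) (f := F)]
  ring

lemma sh_insert (P Q : Finset ℚ → ℚ) (z : ℚ) (U : Finset ℚ) (hz : z ∉ U) :
    sh P Q (insert z U) = sh (fun I => P (insert z I)) (fun J => (∏ j ∈ J, gg z j) * Q J) U +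
      sh (fun I => (∏ i ∈ I, gg i z) * P I) (fun J => Q (insert z J)) U := by
  unfold sh
  rw [Finset.sum_powerset_insert hz, add_comm]
  congr 1
  · refine Finset.sum_congr rfl fun I hI => ?_
    rw [Finset.mem_powerset] at hI
    have hzI : z ∉ I := fun h => hz (hI h)
    have h1 : insert z U \ insert z I = U \ I := by
      ext x
      simp only [Finset.mem_sdiff, Finset.mem_insert, not_or]
      constructor
      · rintro ⟨h1 | h1, h2, h3⟩
        · exact absurd h1 h2
        · exact ⟨h1, h3⟩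
      · rintro ⟨h1, h2⟩
        exact ⟨Or.inr h1, fun h => hz (h ▸ h1), h2⟩
    rw [h1, Finset.prod_insert hzI]
    ring
  · refine Finset.sum_congr rfl fun I hI => ?_
    rw [Finset.mem_powerset] at hI
    have hzI : z ∉ I := fun h => hz (hI h)
    have h1 : insert z U \ I = insert z (U \ I) := Finset.insert_sdiff_of_notMem _ hzI
    have h2 : z ∉ U \ I := fun h => hz (Finset.mem_sdiff.1 h).1
    rw [h1]
    simp_rw [Finset.prod_insert h2]
    rw [Finset.prod_mul_distrib]
    ring

lemma sh_e0 (Q : Finset ℚ → ℚ) (U : Finset ℚ) : sh e0 Q U = Q U := by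
  unfold sh
  rw [Finset.sum_eq_single_of_mem ∅ (Finset.empty_mem_powerset U)]
  · simp [e0]
  · intro I _ hI
    simp [e0, hI]

/-- Associativity. -/
lemma sh_st (F : ℚ → ℚ) (P Q : Finset ℚ → ℚ) (U : Finset ℚ) :
    sh (st F P) Q U = st F (sh P Q) U := by
  unfold sh st
  simp_rw [Finset.sum_mul, Finset.mul_sum]
  rw [Finset.sum_sigma', Finset.sum_sigma']
  refine Finset.sum_bij' (fun a _ => ⟨a.2, a.1.erase a.2⟩) (fun a _ => ⟨insert a.1 a.2, a.1⟩)
    ?_ ?_ ?_ ?_ ?_
  · rintro ⟨I, x⟩ h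
    simp only [Finset.mem_sigma, Finset.mem_powerset] at h ⊢
    exact ⟨h.1 h.2, Finset.erase_subset_erase _ h.1⟩
  · rintro ⟨x, I⟩ h
    simp only [Finset.mem_sigma, Finset.mem_powerset] at h ⊢
    refine ⟨?_, Finset.mem_insert_self _ _⟩
    rw [Finset.insert_subset_iff]
    exact ⟨h.1, h.2.trans (Finset.erase_subset _ _)⟩
  · rintro ⟨I, x⟩ h
    simp only [Finset.mem_sigma, Finset.mem_powerset] at h
    simp only [Finset.insert_erase h.2]
  · rintro ⟨x, I⟩ h
    simp only [Finset.mem_sigma, Finset.mem_powerset] at h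
    have : x ∉ I := fun h' => Finset.notMem_erase x U (h.2 h')
    simp only [Finset.erase_insert this]
  · rintro ⟨I, x⟩ h
    simp only [Finset.mem_sigma, Finset.mem_powerset] at h
    obtain ⟨hI, hx⟩ := h
    have h1 : U.erase x \ I.erase x = U \ I := by
      ext z
      simp only [Finset.mem_sdiff, Finset.mem_erase]
      constructor
      · rintro ⟨⟨h1, h2⟩, h3⟩
        exact ⟨h2, fun h => h3 ⟨h1, h⟩⟩
      · rintro ⟨h1, h2⟩
        exact ⟨⟨fun h => h2 (h ▸ hx), h1⟩, fun h => h2 h.2⟩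
    simp only [h1]
    have h2 : (∏ y ∈ U.erase x, gg x y) =
        (∏ y ∈ I.erase x, gg x y) * ∏ y ∈ U \ I, gg x y := by
      rw [← Finset.prod_sdiff (Finset.erase_subset_erase x hI), h1]
      ring
    have h3 : (∏ i ∈ I, ∏ j ∈ U \ I, gg i j) =
        (∏ j ∈ U \ I, gg x j) * ∏ i ∈ I.erase x, ∏ j ∈ U \ I, gg i j := by
      rw [← Finset.mul_prod_erase I (fun i => ∏ j ∈ U \ I, gg i j) hx]
    rw [h2, h3]
    ring

/-- Iterated star product. -/
def starL (l : List (ℚ → ℚ)) (Q : Finset ℚ → ℚ) : Finset ℚ → ℚ := l.foldr st Q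

@[simp] lemma starL_nil (Q : Finset ℚ → ℚ) : starL [] Q = Q := rfl
@[simp] lemma starL_cons (F : ℚ → ℚ) (l : List (ℚ → ℚ)) (Q : Finset ℚ → ℚ) :
    starL (F :: l) Q = st F (starL l Q) := rfl

lemma starL_append (l l' : List (ℚ → ℚ)) (Q : Finset ℚ → ℚ) :
    starL (l ++ l') Q = starL l (starL l' Q) := by
  unfold starL
  rw [List.foldr_append]

lemma sh_starL (l : List (ℚ → ℚ)) (Q : Finset ℚ → ℚ) :
    sh (starL l e0) Q = starL l Q := by
  induction l with
  | nil => funext U; exact sh_e0 Q U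
  | cons F l ih =>
    funext U
    rw [starL_cons, sh_st, ih, starL_cons]

lemma IsPol.starL {D : ℕ} {E : Finset ℚ} {l : List (ℚ → ℚ)} {Q : Finset ℚ → ℚ}
    (hl : ∀ F ∈ l, ∃ f ∈ degreeLT ℚ D, ∀ x, F x = Polynomial.eval x f) (hQ : IsPol D E Q) :
    IsPol D E (starL l Q) := by
  induction l with
  | nil => exact hQ
  | cons F l ih =>
    rw [starL_cons]
    exact IsPol.st (hl F List.mem_cons_self) (ih fun G hG => hl G (List.mem_cons_of_mem _ hG))

lemma prod_mul_starL (H : ℚ → ℚ) (l : List (ℚ → ℚ)) (Q : Finset ℚ → ℚ) (U : Finset ℚ) :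
    (∏ y ∈ U, H y) * starL l Q U =
      starL (l.map (fun F x => F x * H x)) (fun V => (∏ y ∈ V, H y) * Q V) U := by
  induction l generalizing U with
  | nil => rfl
  | cons F l ih =>
    rw [starL_cons, prod_mul_st, List.map_cons, starL_cons]
    exact st_congr (fun _ _ => rfl) (fun x _ => ih _)

lemma prod_mul_e0 (H : ℚ → ℚ) : (fun V : Finset ℚ => (∏ y ∈ V, H y) * e0 V) = e0 := by
  funext V
  by_cases h : V = ∅
  · subst h; simp [e0]
  · simp [e0, h]

/-- `TT v` is an iterated star product of polynomials. -/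
lemma TT_starL (v : List ℚ) : ∃ l : List (ℚ → ℚ),
    (∀ F ∈ l, ∃ f ∈ degreeLT ℚ v.length, ∀ x, F x = Polynomial.eval x f) ∧
      TT v = starL l e0 := by
  induction v with
  | nil => exact ⟨[], by simp, rfl⟩
  | cons a v ih =>
    obtain ⟨l, hl, hl'⟩ := ih
    refine ⟨(fun x => (v.map (fun w => hh x w)).prod) :: l.map (fun F x => F x * hh a x), ?_, ?_⟩
    · intro F hF
      rw [List.mem_cons] at hF
      rcases hF with rfl | hF
      · exact listprod_poly v
      · rw [List.mem_map] at hF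
        obtain ⟨G, hG, rfl⟩ := hF
        obtain ⟨f, hf, hf'⟩ := hl G hG
        refine ⟨f * (C (1 - a) + C a * X), degreeLT_mul hf (b := 1) (lin_mem _ _), fun x => ?_⟩
        rw [eval_mul, ← hf']
        simp only [eval_add, eval_mul, eval_C, eval_X, hh]
    · funext U
      rw [TT, starL_cons]
      refine st_congr (fun _ _ => rfl) (fun x _ => ?_)
      rw [hl', prod_mul_starL, prod_mul_e0]

lemma IsPol.sh_TT {E : Finset ℚ} (v : List ℚ) {Q : Finset ℚ → ℚ} (hQ : IsPol v.length E Q) :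
    IsPol v.length E (sh (TT v) Q) := by
  obtain ⟨l, hl, hl'⟩ := TT_starL v
  rw [hl', sh_starL]
  exact IsPol.starL hl hQ

/-! ### The pair reduction -/

/-- Evaluation when `tt v` is one of the elements. -/
lemma TT_E2 (v : ℚ) (v' : List ℚ) (U : Finset ℚ) (hv1 : v ≠ 1) (hU : tt v ∉ U) (hvU : v ∉ U) :
    TT (v :: v') (insert (tt v) U) =
      (v'.map (fun w => hh v w)).prod * (∏ r ∈ U, hh r (tt v)) * TT v' U := by
  rw [TT_exchange v' (tt v) v U hU hvU, TT_E1 (tt v) v' _ (tt_ne_zero v hv1)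
    (by rw [sg_tt]; simp), sg_tt, Finset.erase_insert hvU]

/-- The function of Theorem X. -/
def ff (v : List ℚ) (y : ℚ) : Finset ℚ → ℚ := sh (TT v) (fun J => TT v (insert y J))

lemma ff_isPol (v : List ℚ) (y : ℚ) : IsPol v.length {y} (ff v y) := by
  refine IsPol.sh_TT v ?_
  exact IsPol.insert_arg y (by simp) (TT_isPol v)

lemma ff_pair (v : ℚ) (v' : List ℚ) (hv' : v' ≠ []) (y : ℚ) (U : Finset ℚ) (hv : v ≠ 0)
    (hv1 : v ≠ 1) (hvU : v ∉ U) (haU : sg v ∉ U) (hbU : tt v ∉ U) (hyU : y ∉ U)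
    (hya : y ≠ sg v) (hyb : y ≠ tt v) :
    ff (v :: v') y (insert (sg v) (insert (tt v) U)) =
      (v'.map (fun w => hh v w)).prod * (v'.map (fun w => hh (sg v) w)).prod * hh y v *
        (v - 1) ^ (v'.length - 1) * (∏ u ∈ U, hh (tt v) u) * ff v' y U := by
  have hab : tt v ≠ sg v := tt_ne_sg v hv hv1
  have h1v : 1 - v ≠ 0 := sub_ne_zero.2 hv1.symm
  have hvb : v ≠ tt v := (tt_ne_self v hv1).symm
  have hva : v ≠ sg v := (sg_ne_self v hv).symm
  unfold ff
  rw [sh_insert _ _ (sg v) _ (by simp [hab.symm, haU])]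
  -- the term with `sg v` in the first part vanishes
  have t1 : sh (fun I => TT (v :: v') (insert (sg v) I))
      (fun J => (∏ j ∈ J, gg (sg v) j) * TT (v :: v') (insert y J)) (insert (tt v) U) = 0 := by
    rw [sh_insert _ _ (tt v) _ hbU]
    have s1 : sh (fun I => TT (v :: v') (insert (sg v) (insert (tt v) I)))
      (fun J => (∏ j ∈ J, gg (tt v) j) * ((∏ j ∈ J, gg (sg v) j) * TT (v :: v') (insert y J))) U
        = 0 := by
      apply sh_eq_zero_left
      intro I _
      exact TT_wheel v v' _ hv hv1 (by simp) (by simp)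
    have s2 : sh (fun I => (∏ i ∈ I, gg i (tt v)) * TT (v :: v') (insert (sg v) I))
      (fun J => (∏ j ∈ insert (tt v) J, gg (sg v) j) *
        TT (v :: v') (insert y (insert (tt v) J))) U = 0 := by
      apply sh_eq_zero_right
      intro J hJ
      have : gg (sg v) (tt v) = 0 := by
        unfold gg hh sg tt
        rw [div_eq_zero_iff]
        left
        field_simp
        ring
      rw [Finset.prod_insert (fun h => hbU (hJ h)), this]
      ring
    rw [s1, s2, add_zero]
  rw [t1, zero_add, sh_insert _ _ (tt v) _ hbU]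
  have t2 : sh (fun I => (∏ i ∈ I, gg i (tt v)) * ((∏ i ∈ I, gg i (sg v)) * TT (v :: v') I))
      (fun J => TT (v :: v') (insert y (insert (sg v) (insert (tt v) J)))) U = 0 := by
    apply sh_eq_zero_right
    intro J _
    exact TT_wheel v v' _ hv hv1 (by simp) (by simp)
  rw [t2, add_zero]
  have t3 : sh (fun I => (∏ i ∈ insert (tt v) I, gg i (sg v)) * TT (v :: v') (insert (tt v) I))
      (fun J => (∏ j ∈ J, gg (tt v) j) * TT (v :: v') (insert y (insert (sg v) J))) U =
      sh (fun I => (v'.map (fun w => hh v w)).prod * ((∏ i ∈ I, hh (tt v) i) * TT v' I))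
        (fun J => ((v'.map (fun w => hh (sg v) w)).prod * hh y v * (v - 1) ^ (v'.length - 1)) *
          ((∏ j ∈ J, hh (tt v) j) * TT v' (insert y J))) U := by
    apply sh_congr
    · intro I hI
      have hbI : tt v ∉ I := fun h => hbU (hI h)
      rw [TT_E2 v v' I hv1 hbI (fun h => hvU (hI h)), Finset.prod_insert hbI]
      have g1 : gg (tt v) (sg v) = 1 := by
        unfold gg
        rw [div_eq_one_iff_eq (sub_ne_zero.2 hab.symm)]
        unfold hh sg tt
        field_simp
        ring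
      have g2 : (∏ i ∈ I, gg i (sg v)) * (∏ r ∈ I, hh r (tt v)) = ∏ i ∈ I, hh (tt v) i := by
        rw [← Finset.prod_mul_distrib]
        refine Finset.prod_congr rfl fun r hr => ?_
        have hr1 : sg v - r ≠ 0 := sub_ne_zero.2 fun h => haU (h ▸ hI hr)
        unfold gg
        rw [div_mul_eq_mul_div, div_eq_iff hr1]
        unfold hh sg tt
        field_simp
        ring
      rw [g1]
      linear_combination (v'.map (fun w => hh v w)).prod * TT v' I * g2
    · intro J hJ
      have haJ : sg v ∉ J := fun h => haU (hJ h)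
      have hyJ : y ∉ J := fun h => hyU (hJ h)
      rw [Finset.insert_comm y (sg v) J, TT_E1 v v' _ hv (by simp),
        Finset.erase_insert (by simp [hya.symm, haJ]), Finset.prod_insert hyJ]
      by_cases hc : J.card + 1 = v'.length
      · have g2 : (∏ j ∈ J, gg (tt v) j) * (∏ r ∈ J, hh r v) =
            (v - 1) ^ (v'.length - 1) * ∏ i ∈ J, hh (tt v) i := by
          rw [← hc, Nat.add_sub_cancel, ← Finset.prod_const, ← Finset.prod_mul_distrib,
            ← Finset.prod_mul_distrib]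
          refine Finset.prod_congr rfl fun r hr => ?_
          have hr1 : r - tt v ≠ 0 := sub_ne_zero.2 fun h => hbU (h ▸ hJ hr)
          unfold gg
          rw [div_mul_eq_mul_div, div_eq_iff hr1]
          unfold hh tt
          field_simp
          ring
        linear_combination (v'.map (fun w => hh (sg v) w)).prod * hh y v *
          TT v' (insert y J) * g2
      · rw [TT_card v' (insert y J) (by rw [Finset.card_insert_of_notMem hyJ]; exact hc)]
        ring
  rw [t3, sh_smul, sh_prod]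
  ring

end Helper79
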