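import Pool.Agent.Helper79.TProp

set_option autoImplicit false

namespace Helper79

open Finset Polynomial

lemma poly_zero_of_eventually {p : ℚ[X]} (h : ∀ᶠ z in Filter.cofinite, p.eval z = 0) : p = 0 := by
  refine Polynomial.eq_zero_of_infinite_isRoot p ?_
  have h1 : {z : ℚ | ¬ p.eval z = 0}.Finite := h
  have h2 := h1.infinite_compl
  refine h2.mono ?_
  intro z hz
  simp only [Set.mem_compl_iff, Set.mem_ofPred_eq, not_not] at hz
  exact hz

lemma poly_eq_of_eventually {p q : ℚ[X]} (h : ∀ᶠ z in Filter.cofinite, p.eval z = q.eval z) :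
    p = q := by
  rw [← sub_eq_zero]
  refine poly_zero_of_eventually ?_
  filter_upwards [h] with z hz
  rw [eval_sub, hz, sub_self]

/-- Polynomial continuation. -/
lemma continuation {D : ℕ} {E : Finset ℚ} {d : Finset ℚ → ℚ} (hd : IsPol D E d)
    (Good : Finset ℚ → Prop) (h0 : Good ∅)
    (hG : ∀ V, Good V → ∀ᶠ z in Filter.cofinite, Good (insert z V))
    (hv : ∀ V, Good V → Disjoint V E → d V = 0) : ∀ V, Disjoint V E → d V = 0 := by
  have key : ∀ B : Finset ℚ, Disjoint B E → ∀ V, Good V → Disjoint V E → Disjoint V B →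
      d (V ∪ B) = 0 := by
    intro B
    induction B using Finset.induction_on with
    | empty =>
      intro _ V hV hVE _
      rw [Finset.union_empty]
      exact hv V hV hVE
    | insert b B hb ih =>
      intro hBE V hV hVE hVB
      rw [Finset.disjoint_insert_left] at hBE
      rw [Finset.disjoint_insert_right] at hVB
      obtain ⟨p, _, hp⟩ := hd (V ∪ B) (Finset.disjoint_union_left.2 ⟨hVE, hBE.2⟩)
      have hp0 : p = 0 := by
        refine poly_zero_of_eventually ?_
        filter_upwards [hG V hV, Finset.eventually_cofinite_notMem (V ∪ B),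
          Finset.eventually_cofinite_notMem E] with z h1 h2 h3
        rw [← hp z h2 h3, ← Finset.insert_union]
        refine ih hBE.2 _ h1 ?_ ?_
        · rw [Finset.disjoint_insert_left]; exact ⟨h3, hVE⟩
        · rw [Finset.disjoint_insert_left]
          exact ⟨fun h => h2 (Finset.mem_union_right _ h), hVB.2⟩
      rw [Finset.union_insert, hp b ?_ hBE.1, hp0, eval_zero]
      rw [Finset.mem_union, not_or]
      exact ⟨hVB.1, hb⟩
  intro V hVE
  have := key V hVE ∅ h0 (Finset.disjoint_empty_left _) (Finset.disjoint_empty_left _)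
  rwa [Finset.empty_union] at this

lemma IsPol.insert_arg {D : ℕ} {E : Finset ℚ} {Q : Finset ℚ → ℚ} (u : ℚ) (hu : u ∉ E)
    (h : IsPol D E Q) : IsPol D (insert u E) (fun U => Q (insert u U)) := by
  intro V hV
  rw [Finset.disjoint_insert_right] at hV
  obtain ⟨p, hp, hp'⟩ := h (insert u V) (by rw [Finset.disjoint_insert_left]; exact ⟨hu, hV.2⟩)
  refine ⟨p, hp, fun z h1 h2 => ?_⟩
  rw [Finset.mem_insert, not_or] at h2
  beta_reduce
  rw [Finset.insert_comm]
  refine hp' z ?_ h2.2
  rw [Finset.mem_insert, not_or]
  exact ⟨h2.1, h1⟩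

lemma Z2_gen (v' : List ℚ) (u v : ℚ) (U : Finset ℚ) (hu : u ∉ U) (hv : v ∉ U)
    (hG : ∀ y ∈ U, y ≠ 0 ∧ y ≠ 1 ∧ y ∉ v' ∧ tt y ≠ u ∧ tt y ∉ U) (hc : U.card = v'.length) :
    TT (v :: v') (insert u U) = TT (u :: v') (insert v U) := by
  obtain ⟨q, hq, hq'⟩ := TT_poly_head v' (insert u U)
  obtain ⟨p, hp, hp'⟩ := TT_isPol (u :: v') U (by simp)
  have main : q = p := by
    set s : Finset ℚ := insert u (U.image tt) with hs
    have h1 : u ∉ U.image tt := by
      simp only [Finset.mem_image, not_exists, not_and]
      intro z hz h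
      exact (hG z hz).2.2.2.1 h
    have hscard : s.card = U.card + 1 := by
      rw [hs, Finset.card_insert_of_notMem h1, Finset.card_image_of_injective _ tt_injective]
    refine Polynomial.eq_of_degrees_lt_of_eval_finset_eq s ?_ ?_ ?_
    · rw [hscard, ← mem_degreeLT]
      rwa [Finset.card_insert_of_notMem hu] at hq
    · rw [hscard, ← mem_degreeLT, hc]
      exact hp
    · intro z hz
      rw [hs, Finset.mem_insert] at hz
      rw [← hq']
      rcases hz with rfl | hz
      · rw [← hp' z hu (by simp)]
      · rw [Finset.mem_image] at hz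
        obtain ⟨y, hy, rfl⟩ := hz
        obtain ⟨hy0, hy1, hyv, hyu, hyU⟩ := hG y hy
        rw [← hp' (tt y) hyU (by simp)]
        have hyu' : u ≠ y := fun h => hu (h ▸ hy)
        rw [TT_E1 (tt y) v' _ (tt_ne_zero y hy1) (by rw [sg_tt]; simp [hy]), sg_tt]
        have he : (insert u U).erase y = insert u (U.erase y) := by
          rw [Finset.erase_insert_of_ne hyu']
        have hue : u ∉ U.erase y := fun h => hu (Finset.mem_of_mem_erase h)
        have he2 : insert (tt y) U = insert (tt y) (insert (sg (tt y)) (U.erase y)) := by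
          rw [sg_tt, Finset.insert_erase hy]
        rw [he, Finset.prod_insert hue, he2,
          P_gen v' u (tt y) (U.erase y) (tt_ne_zero y hy1) (tt_ne_one y hy0)
            (fun h => hyU (Finset.mem_of_mem_erase h)) (by rw [sg_tt]; simp) ?_ hue
            (by rw [Finset.card_erase_add_one hy]; exact hc), sg_tt]
        · ring
        · intro z hz
          obtain ⟨h1, h2, h3, h4, h5⟩ := hG z (Finset.mem_of_mem_erase hz)
          exact ⟨h1, h2, fun h => h5 (Finset.mem_of_mem_erase h), h3⟩
  rw [hq', main, ← hp' v hv (by simp)]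

/-- Exchange of a parameter with an element. -/
lemma TT_exchange (v' : List ℚ) (u v : ℚ) (U : Finset ℚ) (hu : u ∉ U) (hv : v ∉ U) :
    TT (v :: v') (insert u U) = TT (u :: v') (insert v U) := by
  by_cases hc : U.card = v'.length
  swap
  · rw [TT_card _ _ (by rw [Finset.card_insert_of_notMem hu, List.length_cons]; omega),
      TT_card _ _ (by rw [Finset.card_insert_of_notMem hv, List.length_cons]; omega)]
  have hd1 : IsPol (v'.length + 1) {u, v} (fun U => TT (v :: v') (insert u U)) :=
    (IsPol.insert_arg u (by simp) (TT_isPol (v :: v'))).mono le_rfl (by simp)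
  have hd2 : IsPol (v'.length + 1) {u, v} (fun U => TT (u :: v') (insert v U)) :=
    (IsPol.insert_arg v (by simp) (TT_isPol (u :: v'))).mono le_rfl (by simp)
  have hd := hd1.sub hd2
  have := continuation hd (fun U => ∀ y ∈ U, y ≠ 0 ∧ y ≠ 1 ∧ y ∉ v' ∧ tt y ≠ u ∧ tt y ∉ U)
    (by simp) ?_ ?_ U ?_
  · linarith
  · intro V hV
    filter_upwards [Filter.eventually_cofinite_ne (0 : ℚ), Filter.eventually_cofinite_ne (1 : ℚ),
      Finset.eventually_cofinite_notMem v'.toFinset,
      tt_injective.tendsto_cofinite.eventually (Filter.eventually_cofinite_ne u),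
      tt_injective.tendsto_cofinite.eventually (Finset.eventually_cofinite_notMem V),
      Finset.eventually_cofinite_notMem (V.image tt)] with z h1 h2 h3 h4 h5 h6
    intro y hy
    rw [Finset.mem_insert] at hy
    rcases hy with rfl | hy
    · refine ⟨h1, h2, fun h => h3 (List.mem_toFinset.2 h), h4, ?_⟩
      rw [Finset.mem_insert, not_or]
      exact ⟨tt_ne_self y h2, h5⟩
    · obtain ⟨k1, k2, k3, k4, k5⟩ := hV y hy
      refine ⟨k1, k2, k3, k4, ?_⟩
      rw [Finset.mem_insert, not_or]
      exact ⟨fun h => h6 (Finset.mem_image.2 ⟨y, hy, h⟩), k5⟩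
  · intro V hV hVd
    rw [Finset.disjoint_insert_right, Finset.disjoint_singleton_right] at hVd
    by_cases hVc : V.card = v'.length
    · rw [Z2_gen v' u v V hVd.1 hVd.2 hV hVc, sub_self]
    · rw [TT_card _ _ (by rw [Finset.card_insert_of_notMem hVd.1, List.length_cons]; omega),
        TT_card _ _ (by rw [Finset.card_insert_of_notMem hVd.2, List.length_cons]; omega),
        sub_self]
  · rw [Finset.disjoint_insert_right, Finset.disjoint_singleton_right]
    exact ⟨hu, hv⟩

lemma TT_split : ∀ (n : ℕ) (B A B' A' : Finset ℚ), (B \ B').card = n → Disjoint B A →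
    Disjoint B' A' → B ∪ A = B' ∪ A' → B.card = B'.card → TT B.toList A = TT B'.toList A'
  | 0, B, A, B', A', hn, hd, hd', hU, hc => by
    rw [Finset.card_eq_zero, Finset.sdiff_eq_empty_iff_subset] at hn
    have hB : B = B' := Finset.eq_of_subset_of_card_le hn hc.ge
    subst hB
    have : A = A' := by
      have h1 : (B ∪ A) \ B = A := Finset.union_sdiff_cancel_left hd
      have h2 : (B ∪ A') \ B = A' := Finset.union_sdiff_cancel_left hd'
      rw [← h1, ← h2, hU]
    rw [this]
  | n + 1, B, A, B', A', hn, hd, hd', hU, hc => by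
    have h1 : (B \ B').Nonempty := by
      rw [← Finset.card_pos]; omega
    have h2 : (B' \ B).Nonempty := by
      rw [← Finset.card_pos, ← Finset.card_sdiff_comm hc]; omega
    obtain ⟨v, hv⟩ := h1
    obtain ⟨u, hu⟩ := h2
    rw [Finset.mem_sdiff] at hv hu
    have huA : u ∈ A := by
      have : u ∈ B ∪ A := hU ▸ Finset.mem_union_left _ hu.1
      rcases Finset.mem_union.1 this with h | h
      · exact absurd h hu.2
      · exact h
    have hvA : v ∉ A := Finset.disjoint_left.1 hd hv.1
    have huv : u ≠ v := fun h => hv.2 (h ▸ hu.1)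
    have e1 : TT B.toList A = TT (v :: (B.erase v).toList) (insert u (A.erase u)) := by
      rw [Finset.insert_erase huA]
      have := Finset.toList_insert (Finset.notMem_erase v B)
      rw [Finset.insert_erase hv.1] at this
      rw [TT_perm this]
    have hub : u ∉ B.erase v := fun h => hu.2 (Finset.mem_of_mem_erase h)
    have hva : v ∉ A.erase u := fun h => hvA (Finset.mem_of_mem_erase h)
    rw [e1, TT_exchange _ _ _ _ (Finset.notMem_erase u A) hva,
      ← TT_perm (Finset.toList_insert hub)]
    refine TT_split n _ _ B' A' ?_ ?_ hd' ?_ ?_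
    · have : insert u (B.erase v) \ B' = (B \ B').erase v := by
        ext z
        simp only [Finset.mem_sdiff, Finset.mem_insert, Finset.mem_erase]
        constructor
        · rintro ⟨rfl | h, h'⟩
          · exact absurd hu.1 h'
          · exact ⟨h.1, h.2, h'⟩
        · rintro ⟨h, h', h''⟩
          exact ⟨Or.inr ⟨h, h'⟩, h''⟩
      rw [this]
      have := Finset.card_erase_add_one (Finset.mem_sdiff.2 hv)
      omega
    · rw [Finset.disjoint_insert_left, Finset.disjoint_insert_right]
      refine ⟨?_, Finset.notMem_erase v B, ?_⟩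
      · rw [Finset.mem_insert, not_or]
        exact ⟨huv, Finset.notMem_erase u A⟩
      · exact hd.mono (Finset.erase_subset _ _) (Finset.erase_subset _ _)
    · rw [← hU]
      ext z
      simp only [Finset.mem_union, Finset.mem_insert, Finset.mem_erase]
      constructor
      · rintro ((rfl | h) | (rfl | h))
        · exact Or.inr huA
        · exact Or.inl h.2
        · exact Or.inl hv.1
        · exact Or.inr h.2
      · rintro (h | h)
        · by_cases hz : z = v
          · exact Or.inr (Or.inl hz)
          · exact Or.inl (Or.inr ⟨hz, h⟩)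
        · by_cases hz : z = u
          · exact Or.inl (Or.inl hz)
          · exact Or.inr (Or.inr ⟨hz, h⟩)
    · rw [Finset.card_insert_of_notMem hub, Finset.card_erase_add_one hv.1, hc]

/-- A chosen half of a finite set. -/
noncomputable def half (R : Finset ℚ) : Finset ℚ :=
  (Finset.exists_subset_card_eq (Nat.div_le_self R.card 2)).choose

lemma half_spec (R : Finset ℚ) : half R ⊆ R ∧ (half R).card = R.card / 2 :=
  (Finset.exists_subset_card_eq (Nat.div_le_self R.card 2)).choose_spec

/-- The fully symmetric partition function. -/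
noncomputable def ZZ (R : Finset ℚ) : ℚ := TT (half R).toList (R \ half R)

lemma ZZ_odd (R : Finset ℚ) (h : R.card % 2 = 1) : ZZ R = 0 := by
  unfold ZZ
  apply TT_card
  rw [Finset.card_sdiff_of_subset (half_spec R).1, Finset.length_toList, (half_spec R).2]
  omega

lemma ZZ_eq (B A : Finset ℚ) (hd : Disjoint B A) (hc : B.card = A.card) :
    ZZ (B ∪ A) = TT B.toList A := by
  unfold ZZ
  refine TT_split _ _ _ _ _ rfl Finset.disjoint_sdiff hd ?_ ?_
  · rw [Finset.union_sdiff_of_subset (half_spec _).1]
  · rw [(half_spec _).2, Finset.card_union_of_disjoint hd]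
    omega

lemma ZZ_eq_list (b : List ℚ) (hb : b.Nodup) (A : Finset ℚ) (hd : Disjoint b.toFinset A)
    (hc : b.length = A.card) : ZZ (b.toFinset ∪ A) = TT b A := by
  rw [ZZ_eq _ _ hd (by rw [List.toFinset_card_of_nodup hb]; exact hc)]
  rw [TT_perm (List.toFinset_toList hb)]

end Helper79
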