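import Pool.Agent.Helper79.Basic

set_option autoImplicit false

namespace Helper79

open Finset Polynomial

/-- The inverse of `sg`. -/
def tt (x : ℚ) : ℚ := (1 - x)⁻¹

/-- The partition function with the list `v` of column parameters. -/
def TT : List ℚ → Finset ℚ → ℚ
  | [] => e0
  | v :: v' => st (fun x => (v'.map (fun w => hh x w)).prod)
      (fun U => (∏ y ∈ U, hh v y) * TT v' U)

lemma TT_card : ∀ (v : List ℚ) (U : Finset ℚ), U.card ≠ v.length → TT v U = 0
  | [], U, h => by
    have : U ≠ ∅ := fun h' => h (by simp [h'])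
    simp [TT, e0, this]
  | v :: v', U, h => by
    rw [TT, st]
    refine Finset.sum_eq_zero fun x hx => ?_
    rw [TT_card v' (U.erase x), mul_zero, mul_zero]
    intro h'
    apply h
    rw [← Finset.card_erase_add_one hx, h', List.length_cons]

lemma listprod_poly (l : List ℚ) : ∃ f ∈ degreeLT ℚ (l.length + 1),
    ∀ x, (l.map (fun w => hh x w)).prod = Polynomial.eval x f := by
  induction l with
  | nil =>
    refine ⟨1, ?_, fun x => by simp⟩
    rw [mem_degreeLT]
    simp
  | cons w l ih =>
    obtain ⟨f, hf, hf'⟩ := ih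
    refine ⟨f * (C 1 + C (w - 1) * X), degreeLT_mul hf (b := 1) (lin_mem _ _), fun x => ?_⟩
    rw [List.map_cons, List.prod_cons, hf', eval_mul]
    simp only [eval_add, eval_mul, eval_C, eval_X, hh]
    ring

lemma TT_isPol : ∀ (v : List ℚ), IsPol v.length ∅ (TT v)
  | [] => isPol_e0 ∅
  | v :: v' => by
    rw [TT]
    refine IsPol.st (listprod_poly v') ?_
    have h := IsPol.prod_mul (1 - v) v (TT_isPol v')
    exact h

/-- Polynomiality in the first parameter. -/
lemma TT_poly_head (v' : List ℚ) (U : Finset ℚ) :
    ∃ p ∈ degreeLT ℚ U.card, ∀ v, TT (v :: v') U = Polynomial.eval v p := by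
  refine ⟨∑ x ∈ U, C ((v'.map (fun w => hh x w)).prod * (∏ y ∈ U.erase x, gg x y) *
      TT v' (U.erase x)) * ∏ y ∈ U.erase x, (C 1 + C (y - 1) * X), ?_, fun v => ?_⟩
  · refine Submodule.sum_mem _ fun x hx => ?_
    rw [← smul_eq_C_mul]
    refine Submodule.smul_mem _ _ ?_
    have h := prod_lin_mem (U.erase x) (fun _ => 1) (fun y => y - 1)
    rwa [Finset.card_erase_add_one hx] at h
  · rw [TT, st, eval_finsetSum]
    refine Finset.sum_congr rfl fun x _ => ?_
    rw [eval_mul, eval_C, eval_prod]
    have : ∏ y ∈ U.erase x, eval v (C 1 + C (y - 1) * X : ℚ[X]) = ∏ y ∈ U.erase x, hh v y := by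
      refine Finset.prod_congr rfl fun y _ => ?_
      simp only [eval_add, eval_mul, eval_C, eval_X, hh]
      ring
    rw [this]
    ring

/-- Symmetry in the list of parameters. -/
lemma TT_perm {v w : List ℚ} (h : v.Perm w) : TT v = TT w := by
  induction h with
  | nil => rfl
  | cons a h ih =>
    funext U
    rw [TT, TT, ih]
    congr 1
    funext x
    exact (h.map _).prod_eq
  | swap a b l =>
    funext U
    have key : ∀ a b : ℚ, TT (b :: a :: l) U =
        st (fun x => hh x a * (l.map (fun w => hh x w)).prod)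
          (st (fun x => (l.map (fun w => hh x w)).prod * hh b x)
            (fun V => (∏ y ∈ V, hh b y) * ((∏ y ∈ V, hh a y) * TT l V))) U := by
      intro a b
      rw [TT]
      simp only [List.map_cons, List.prod_cons]
      congr 1
      funext V
      rw [TT, prod_mul_st]
    rw [key, key]
    have e : (fun V : Finset ℚ => (∏ y ∈ V, hh b y) * ((∏ y ∈ V, hh a y) * TT l V)) =
        (fun V => (∏ y ∈ V, hh a y) * ((∏ y ∈ V, hh b y) * TT l V)) := by
      funext V; ring
    rw [e]
    set Q : Finset ℚ → ℚ := fun V => (∏ y ∈ V, hh a y) * ((∏ y ∈ V, hh b y) * TT l V) with hQ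
    have := two_body (F1 := fun x => hh x a * (l.map (fun w => hh x w)).prod)
      (G1 := fun x => (l.map (fun w => hh x w)).prod * hh b x)
      (F2 := fun x => - (hh x b * (l.map (fun w => hh x w)).prod))
      (G2 := fun x => (l.map (fun w => hh x w)).prod * hh a x) Q U ?_
    · rw [st_neg_left] at this
      linarith
    · intro x _ y _ hxy
      have h1 : y - x ≠ 0 := sub_ne_zero.2 hxy.symm
      have h2 : x - y ≠ 0 := sub_ne_zero.2 hxy
      have h3 : (hh x a * hh b y - hh x b * hh a y) * gg x y +
        (hh y a * hh b x - hh y b * hh a x) * gg y x = 0 := by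
        unfold gg hh
        have h4 : (x - y) = -(y - x) := by ring
        rw [h4, div_neg]
        field_simp
        ring
      linear_combination ((l.map (fun w => hh x w)).prod * (l.map (fun w => hh y w)).prod) * h3
  | trans _ _ ih1 ih2 => exact ih1.trans ih2

lemma sg_tt (x : ℚ) : sg (tt x) = x := by
  unfold sg tt
  rw [one_div, inv_inv]; ring

lemma tt_sg (x : ℚ) : tt (sg x) = x := by
  unfold sg tt
  rw [one_div, sub_sub_cancel, inv_inv]

lemma tt_injective : Function.Injective tt := fun x y h => by
  rw [← sg_tt x, h, sg_tt]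

lemma sg_injective : Function.Injective sg := fun x y h => by
  rw [← tt_sg x, h, tt_sg]

lemma quad_ne (x : ℚ) : x ^ 2 - x + 1 ≠ 0 := by
  nlinarith [sq_nonneg (x - 1 / 2)]

lemma sg_ne_self (x : ℚ) (hx : x ≠ 0) : sg x ≠ x := by
  intro h
  unfold sg at h
  field_simp at h
  exact quad_ne x (by linarith)

lemma tt_ne_self (x : ℚ) (hx : x ≠ 1) : tt x ≠ x := by
  intro h
  have h1 := sg_tt x
  rw [h] at h1
  by_cases h0 : x = 0
  · subst h0; norm_num [tt] at h
  exact sg_ne_self x h0 h1

lemma tt_tt (x : ℚ) (hx : x ≠ 0) (hx1 : x ≠ 1) : tt (tt x) = sg x := by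
  have h1 : 1 - x ≠ 0 := sub_ne_zero.2 hx1.symm
  unfold tt sg
  have h2 : 1 - (1 - x)⁻¹ = - x / (1 - x) := by field_simp; ring
  rw [h2, inv_div]
  field_simp
  ring

lemma tt_ne_sg (x : ℚ) (hx : x ≠ 0) (hx1 : x ≠ 1) : tt x ≠ sg x := by
  intro h
  rw [← tt_tt x hx hx1] at h
  have h3 := tt_injective h
  exact tt_ne_self x hx1 h3.symm

lemma tt_ne_zero (x : ℚ) (hx1 : x ≠ 1) : tt x ≠ 0 := by
  unfold tt
  exact inv_ne_zero (sub_ne_zero.2 hx1.symm)

lemma tt_ne_one (x : ℚ) (hx : x ≠ 0) : tt x ≠ 1 := by
  intro h
  have h1 := sg_tt x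
  rw [h] at h1
  apply hx
  rw [← h1]
  norm_num [sg]

lemma hh_self_sg (v : ℚ) (hv : v ≠ 0) : hh v (sg v) = 0 := by
  unfold hh sg; field_simp; ring

/-- Evaluation when `sg v` is one of the elements. -/
lemma TT_E1 (v : ℚ) (v' : List ℚ) (U : Finset ℚ) (hv : v ≠ 0) (hU : sg v ∈ U) :
    TT (v :: v') U = (v'.map (fun w => hh (sg v) w)).prod * (∏ y ∈ U.erase (sg v), hh y v) *
      TT v' (U.erase (sg v)) := by
  rw [TT, st, Finset.sum_eq_single_of_mem _ hU]
  · have : (∏ y ∈ U.erase (sg v), gg (sg v) y) * (∏ y ∈ U.erase (sg v), hh v y) =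
        ∏ y ∈ U.erase (sg v), hh y v := by
      rw [← Finset.prod_mul_distrib]
      refine Finset.prod_congr rfl fun y hy => ?_
      have h1 : y - sg v ≠ 0 := sub_ne_zero.2 (Finset.ne_of_mem_erase hy)
      have h2 : hh v y = v * (y - sg v) := by
        unfold hh sg; field_simp; ring
      rw [h2]
      unfold gg
      field_simp
      unfold hh sg
      field_simp
      ring
    linear_combination (v'.map (fun w => hh (sg v) w)).prod * TT v' (U.erase (sg v)) * this
  · intro x hx hne
    rw [Finset.prod_eq_zero (Finset.mem_erase.2 ⟨hne.symm, hU⟩) (hh_self_sg v hv)]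
    ring

/-- The mixed wheel condition. -/
lemma TT_wheel (v : ℚ) (v' : List ℚ) (U : Finset ℚ) (hv : v ≠ 0) (hv1 : v ≠ 1) (hU : sg v ∈ U)
    (hU' : tt v ∈ U) : TT (v :: v') U = 0 := by
  rw [TT_E1 v v' U hv hU]
  have h1 : tt v ∈ U.erase (sg v) := Finset.mem_erase.2 ⟨tt_ne_sg v hv hv1, hU'⟩
  have h2 : hh (tt v) v = 0 := by
    have h3 : 1 - v ≠ 0 := sub_ne_zero.2 hv1.symm
    unfold hh tt
    field_simp
    ring
  rw [Finset.prod_eq_zero h1 h2]
  ring

/-- Collapse of a pair, generic case. -/
lemma P_gen : ∀ (v' : List ℚ) (u x : ℚ) (U : Finset ℚ), x ≠ 0 → x ≠ 1 → x ∉ U → sg x ∉ U →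
    (∀ z ∈ U, z ≠ 0 ∧ z ≠ 1 ∧ tt z ∉ U ∧ z ∉ v') → u ∉ U → U.card + 1 = v'.length →
    TT (u :: v') (insert x (insert (sg x) U)) =
      hh u x * (v'.map (fun w => hh (sg x) w)).prod * (∏ z ∈ U, hh z x) * TT v' (insert u U)
  | [], u, x, U, _, _, _, _, _, _, hc => by simp at hc
  | u1 :: v'', u, x, U, hx0, hx1, hxU, hsU, hU, huU, hc => by
    have hxs : x ≠ sg x := (sg_ne_self x hx0).symm
    obtain ⟨p, hp, hp'⟩ := TT_isPol (u1 :: v'') U (by simp)
    obtain ⟨q, hq, hq'⟩ := TT_poly_head (u1 :: v'') (insert x (insert (sg x) U))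
    have hxi : x ∉ insert (sg x) U := by simp [hxs, hxU]
    have hcard : (insert x (insert (sg x) U)).card = U.card + 2 := by
      rw [Finset.card_insert_of_notMem hxi, Finset.card_insert_of_notMem hsU]
    set c : ℚ := ((u1 :: v'').map (fun w => hh (sg x) w)).prod * (∏ z ∈ U, hh z x) with hcdef
    have main : q = C c * (p * (C 1 + C (x - 1) * X)) := by
      set s : Finset ℚ := insert x (insert (tt x) (U.image tt)) with hs
      have hxt : x ≠ tt x := (tt_ne_self x hx1).symm
      have h1 : tt x ∉ U.image tt := by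
        simp only [Finset.mem_image, not_exists, not_and]
        intro z hz h
        exact hxU (tt_injective h ▸ hz)
      have h2 : x ∉ insert (tt x) (U.image tt) := by
        simp only [Finset.mem_insert, Finset.mem_image, not_or, not_exists, not_and]
        refine ⟨hxt, fun z hz h => hsU ?_⟩
        rw [← h, sg_tt]
        exact hz
      have hscard : s.card = U.card + 2 := by
        rw [hs, Finset.card_insert_of_notMem h2, Finset.card_insert_of_notMem h1,
          Finset.card_image_of_injective _ tt_injective]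
      refine Polynomial.eq_of_degrees_lt_of_eval_finset_eq s ?_ ?_ ?_
      · rw [hscard, ← mem_degreeLT, ← hcard]; exact hq
      · rw [hscard, ← mem_degreeLT, ← smul_eq_C_mul]
        refine Submodule.smul_mem _ _ ?_
        have h3 := degreeLT_mul hp (b := 1) (lin_mem 1 (x - 1))
        rw [← hc] at h3
        exact h3
      · intro z hz
        rw [hs, Finset.mem_insert, Finset.mem_insert] at hz
        have hR : ∀ z, eval z (C c * (p * (C 1 + C (x - 1) * X))) = c * (eval z p * hh z x) := by
          intro z
          simp only [eval_mul, eval_C, eval_add, eval_X, hh]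
          ring
        rw [hR, ← hq']
        rcases hz with rfl | rfl | hz
        · -- u = x
          rw [← hp' z hxU (by simp)]
          rw [TT_E1 z (u1 :: v'') _ hx0 (by simp)]
          have he : (insert z (insert (sg z) U)).erase (sg z) = insert z U := by
            rw [Finset.erase_insert_of_ne hxs, Finset.erase_insert hsU]
          rw [he, Finset.prod_insert hxU, hcdef]
          ring
        · -- u = tt x
          rw [TT_wheel (tt x) _ _ (tt_ne_zero x hx1) (tt_ne_one x hx0)
            (by rw [sg_tt]; simp) (by rw [tt_tt x hx0 hx1]; simp)]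
          have h2 : hh (tt x) x = 0 := by
            have h3 : 1 - x ≠ 0 := sub_ne_zero.2 hx1.symm
            unfold hh tt
            field_simp
            ring
          rw [h2]; ring
        · -- u = tt z
          rw [Finset.mem_image] at hz
          obtain ⟨z, hz, rfl⟩ := hz
          obtain ⟨hz0, hz1, hzt, hzv⟩ := hU z hz
          rw [← hp' (tt z) hzt (by simp)]
          have hzx : z ≠ x := fun h => hxU (h ▸ hz)
          have hzsx : z ≠ sg x := fun h => hsU (h ▸ hz)
          have hUe : ∀ y ∈ U.erase z, y ≠ 0 ∧ y ≠ 1 ∧ tt y ∉ U.erase z ∧ y ∉ v'' := by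
            intro y hy
            obtain ⟨h1, h2, h3, h4⟩ := hU y (Finset.mem_of_mem_erase hy)
            exact ⟨h1, h2, fun h => h3 (Finset.mem_of_mem_erase h),
              fun h => h4 (List.mem_cons_of_mem _ h)⟩
          have hu1 : u1 ∉ U.erase z := fun h =>
            (hU u1 (Finset.mem_of_mem_erase h)).2.2.2 List.mem_cons_self
          have hce : (U.erase z).card + 1 + 1 = (u1 :: v'').length := by
            rw [Finset.card_erase_add_one hz]; exact hc
          have hce' : (U.erase z).card + 1 = v''.length := by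
            simpa using hce
          -- left side
          have hL : TT (tt z :: u1 :: v'') (insert x (insert (sg x) U)) =
              ((hh z u1) * (v''.map (fun w => hh z w)).prod) *
                (hh x (tt z) * (hh (sg x) (tt z) * ∏ y ∈ U.erase z, hh y (tt z))) *
                (hh u1 x * (v''.map (fun w => hh (sg x) w)).prod * (∏ y ∈ U.erase z, hh y x) *
                  TT v'' (insert u1 (U.erase z))) := by
            rw [TT_E1 (tt z) (u1 :: v'') _ (tt_ne_zero z hz1) (by rw [sg_tt]; simp [hz])]
            rw [sg_tt]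
            have he : (insert x (insert (sg x) U)).erase z =
                insert x (insert (sg x) (U.erase z)) := by
              rw [Finset.erase_insert_of_ne hzx.symm, Finset.erase_insert_of_ne hzsx.symm]
            rw [he, Finset.prod_insert (by simp [hxs, hxU]), Finset.prod_insert (by simp [hsU]),
              P_gen v'' u1 x (U.erase z) hx0 hx1 (by simp [hxU]) (by simp [hsU]) hUe hu1 hce']
            simp only [List.map_cons, List.prod_cons]
          have hRt : TT (u1 :: v'') (insert (tt z) U) =
              hh u1 (tt z) * (v''.map (fun w => hh z w)).prod *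
                (∏ y ∈ U.erase z, hh y (tt z)) * TT v'' (insert u1 (U.erase z)) := by
            have he : insert (tt z) U = insert (tt z) (insert (sg (tt z)) (U.erase z)) := by
              rw [sg_tt, Finset.insert_erase hz]
            rw [he, P_gen v'' u1 (tt z) (U.erase z) (tt_ne_zero z hz1) (tt_ne_one z hz0)
              (fun h => hzt (Finset.mem_of_mem_erase h)) (by rw [sg_tt]; simp) hUe hu1 hce',
              sg_tt]
          rw [hL, hRt, hcdef, ← Finset.mul_prod_erase U (fun y => hh y x) hz]
          simp only [List.map_cons, List.prod_cons]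
          have hid : hh z u1 * hh x (tt z) * hh (sg x) (tt z) * hh u1 x =
              hh (tt z) x * hh (sg x) u1 * hh z x * hh u1 (tt z) := by
            have h3 : 1 - z ≠ 0 := sub_ne_zero.2 hz1.symm
            unfold hh tt sg
            field_simp
            ring
          linear_combination ((v''.map (fun w => hh z w)).prod *
            (∏ y ∈ U.erase z, hh y (tt z)) * (v''.map (fun w => hh (sg x) w)).prod *
            (∏ y ∈ U.erase z, hh y x) * TT v'' (insert u1 (U.erase z))) * hid
    rw [hq', main]
    rw [hp' u huU (by simp)]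
    simp only [eval_mul, eval_C, eval_add, eval_X, hh]
    rw [hcdef]
    simp only [hh]
    ring

end Helper79
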