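import Pool.Agent.Helper79.Shuf

set_option autoImplicit false

namespace Helper79

open Finset Polynomial

lemma ZZ_pair (a : ℚ) (R : Finset ℚ) (k : ℕ) (ha : a ≠ 0) (haR : a ∉ R) (hsR : sg a ∉ R)
    (hR : R.card = 2 * k) :
    a ^ k * ZZ (insert a (insert (sg a) R)) = (∏ r ∈ R, hh r a) * ZZ R := by
  obtain ⟨B, hBR, hBc⟩ := Finset.exists_subset_card_eq (show k ≤ R.card by omega)
  have hAc : (R \ B).card = k := by
    rw [Finset.card_sdiff_of_subset hBR]; omega
  have hsa : sg a ≠ a := sg_ne_self a ha
  have haB : a ∉ B := fun h => haR (hBR h)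
  have hsB : sg a ∉ B := fun h => hsR (hBR h)
  have haA : a ∉ R \ B := fun h => haR (Finset.mem_sdiff.1 h).1
  have hsA : sg a ∉ R \ B := fun h => hsR (Finset.mem_sdiff.1 h).1
  have hRe : B ∪ (R \ B) = R := Finset.union_sdiff_of_subset hBR
  have hd : Disjoint B (R \ B) := Finset.disjoint_sdiff
  have h1 : insert a (insert (sg a) R) = (insert a B) ∪ (insert (sg a) (R \ B)) := by
    rw [Finset.insert_union, Finset.union_insert, hRe]
  have hd' : Disjoint (insert a B) (insert (sg a) (R \ B)) := by
    rw [Finset.disjoint_insert_left, Finset.disjoint_insert_right]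
    refine ⟨?_, hsB, hd⟩
    rw [Finset.mem_insert, not_or]
    exact ⟨hsa.symm, haA⟩
  rw [h1, ZZ_eq _ _ hd' (by rw [Finset.card_insert_of_notMem haB,
    Finset.card_insert_of_notMem hsA, hBc, hAc])]
  rw [TT_perm (Finset.toList_insert haB), TT_E1 a _ _ ha (by simp),
    Finset.erase_insert hsA, Finset.prod_map_toList]
  have h2 : ZZ R = TT B.toList (R \ B) := by
    conv_lhs => rw [← hRe]
    exact ZZ_eq _ _ hd (by rw [hBc, hAc])
  rw [h2, ← Finset.prod_sdiff hBR]
  have h3 : a ^ k * ∏ x ∈ B, hh (sg a) x = ∏ x ∈ B, hh x a := by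
    rw [← hBc, ← Finset.prod_const, ← Finset.prod_mul_distrib]
    refine Finset.prod_congr rfl fun r _ => ?_
    unfold hh sg
    field_simp
    ring
  linear_combination ((∏ y ∈ R \ B, hh y a) * TT B.toList (R \ B)) * h3

lemma ZZ_pol (V : Finset ℚ) (m : ℕ) (hV : V.card + 1 = 2 * m) :
    ∃ p ∈ degreeLT ℚ m, ∀ z, z ∉ V → ZZ (insert z V) = Polynomial.eval z p := by
  obtain ⟨B, hBR, hBc⟩ := Finset.exists_subset_card_eq (show m ≤ V.card by omega)
  obtain ⟨p, hp, hp'⟩ := TT_isPol B.toList (V \ B) (by simp)
  refine ⟨p, ?_, fun z hz => ?_⟩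
  · rwa [Finset.length_toList, hBc] at hp
  · have hz1 : z ∉ V \ B := fun h => hz (Finset.mem_sdiff.1 h).1
    rw [← hp' z hz1 (by simp)]
    have h1 : insert z V = B ∪ insert z (V \ B) := by
      rw [Finset.union_insert, Finset.union_sdiff_of_subset hBR]
    rw [h1, ZZ_eq]
    · rw [Finset.disjoint_insert_right]
      exact ⟨fun h => hz (hBR h), Finset.disjoint_sdiff⟩
    · rw [Finset.card_insert_of_notMem hz1, Finset.card_sdiff_of_subset hBR, hBc]
      omega

/-- The constant of Theorem X. -/
def CC : List ℚ → ℚ
  | [] => 1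
  | v :: v' => (v'.map (fun w => hh v w * hh w v)).prod * CC v'

lemma CC_perm {v w : List ℚ} (h : v.Perm w) : CC v = CC w := by
  induction h with
  | nil => rfl
  | cons a h ih => rw [CC, CC, ih, (h.map _).prod_eq]
  | swap a b l =>
    simp only [CC, List.map_cons, List.prod_cons]
    ring
  | trans _ _ ih1 ih2 => exact ih1.trans ih2

/-- The interpolation argument. -/
lemma interp (v : Finset ℚ) (m : ℕ) (hm : v.card = m) (hm2 : 2 ≤ m) (E : Finset ℚ)
    (hE : ∀ w ∈ v, sg w ∉ E ∧ tt w ∉ E) (hor : ∀ w ∈ v, ∀ w' ∈ v, tt w ≠ sg w')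
    (d : Finset ℚ → ℚ)
    (hpol : ∀ V : Finset ℚ, V.card + 2 = 2 * m → Disjoint V E → ∃ p ∈ degreeLT ℚ m,
      ∀ z, z ∉ V → z ∉ E → d (insert z V) = Polynomial.eval z p)
    (hpair : ∀ U : Finset ℚ, U.card + 1 = 2 * m → Disjoint U E → ∀ w ∈ v, sg w ∈ U → tt w ∈ U →
      d U = 0) :
    ∀ U : Finset ℚ, U.card + 1 = 2 * m → Disjoint U E → d U = 0 := by
  have key : ∀ k : ℕ, ∀ U : Finset ℚ, (v.filter (fun w => sg w ∉ U)).card = k →
      U.card + 1 = 2 * m → Disjoint U E → d U = 0 := by
    intro k
    induction k using Nat.strong_induction_on with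
    | _ k ih =>
      intro U hk hU hUE
      by_cases hex : ∃ w ∈ v, sg w ∈ U ∧ tt w ∈ U
      · obtain ⟨w, hw, h1, h2⟩ := hex
        exact hpair U hU hUE w hw h1 h2
      push Not at hex
      obtain ⟨z, hzU, hz⟩ : ∃ z ∈ U, z ∉ v.image sg := by
        refine Finset.exists_mem_notMem_of_card_lt_card ?_
        rw [Finset.card_image_of_injective _ sg_injective]
        omega
      have hcard := Finset.card_erase_add_one hzU
      have hVE : Disjoint (U.erase z) E := hUE.mono_left (Finset.erase_subset _ _)
      obtain ⟨p, hp, hp'⟩ := hpol (U.erase z) (by omega) hVE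
      have hzs : ∀ w ∈ v, z ≠ sg w := fun w hw h => hz (Finset.mem_image.2 ⟨w, hw, h.symm⟩)
      have hp0 : p = 0 := by
        set P : ℚ → ℚ := fun w => if sg w ∈ U then tt w else sg w with hP
        have hinj : Set.InjOn P v := by
          intro w hw w' hw' h
          simp only [hP] at h
          split_ifs at h with h1 h2 h2
          · exact tt_injective h
          · exact absurd h (hor w hw w' hw')
          · exact absurd h.symm (hor w' hw' w hw)
          · exact sg_injective h
        refine Polynomial.eq_zero_of_degree_lt_of_eval_finset_eq_zero (v.image P) ?_ ?_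
        · rw [Finset.card_image_of_injOn hinj, hm, ← mem_degreeLT]
          exact hp
        · intro x hx
          rw [Finset.mem_image] at hx
          obtain ⟨w, hw, rfl⟩ := hx
          simp only [hP]
          split_ifs with h1
          · have h2 : tt w ∉ U.erase z := fun h => hex w hw h1 (Finset.mem_of_mem_erase h)
            rw [← hp' _ h2 (hE w hw).2]
            refine hpair _ ?_ ?_ w hw ?_ (Finset.mem_insert_self _ _)
            · rw [Finset.card_insert_of_notMem h2]; omega
            · rw [Finset.disjoint_insert_left]; exact ⟨(hE w hw).2, hVE⟩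
            · exact Finset.mem_insert_of_mem (Finset.mem_erase.2 ⟨(hzs w hw).symm, h1⟩)
          · have h2 : sg w ∉ U.erase z := fun h => h1 (Finset.mem_of_mem_erase h)
            rw [← hp' _ h2 (hE w hw).1]
            refine ih _ ?_ _ rfl ?_ ?_
            · rw [← hk]
              apply Finset.card_lt_card
              rw [Finset.ssubset_iff_of_subset]
              · refine ⟨w, ?_, ?_⟩
                · rw [Finset.mem_filter]; exact ⟨hw, h1⟩
                · rw [Finset.mem_filter]
                  rintro ⟨_, h3⟩
                  exact h3 (Finset.mem_insert_self _ _)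
              · intro w' hw'
                rw [Finset.mem_filter] at hw' ⊢
                refine ⟨hw'.1, fun h => hw'.2 ?_⟩
                exact Finset.mem_insert_of_mem (Finset.mem_erase.2 ⟨(hzs w' hw'.1).symm, h⟩)
            · rw [Finset.card_insert_of_notMem h2]; omega
            · rw [Finset.disjoint_insert_left]; exact ⟨(hE w hw).1, hVE⟩
      rw [← Finset.insert_erase hzU, hp' z (Finset.notMem_erase _ _)
        (Finset.disjoint_left.1 hUE hzU), hp0, eval_zero]
  intro U hU hUE
  exact key _ U rfl hU hUE

/-- Different orbits. -/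
def NR (a b : ℚ) : Prop := a ≠ b ∧ a ≠ sg b ∧ a ≠ tt b

lemma NR.symm {a b : ℚ} (h : NR a b) : NR b a := by
  obtain ⟨h1, h2, h3⟩ := h
  exact ⟨h1.symm, fun h => h3 (by rw [h, tt_sg]), fun h => h2 (by rw [h, sg_tt])⟩

instance : Std.Symm NR := ⟨fun _ _ h => h.symm⟩

/-- The two sides of Theorem X agree. -/
def XX (v : List ℚ) (y : ℚ) (U : Finset ℚ) : Prop :=
  ff v y U = CC v * y ^ (v.length - 1) * ZZ (insert (sg y) U)

lemma XX_perm {v w : List ℚ} (h : v.Perm w) {y : ℚ} {U : Finset ℚ} (hX : XX v y U) :
    XX w y U := by
  unfold XX ff at *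
  rw [← TT_perm h, ← CC_perm h, ← h.length_eq]
  exact hX

/-- Theorem X for generic parameters. -/
theorem thmX : ∀ (n : ℕ) (v : List ℚ) (y : ℚ) (U : Finset ℚ), v.length = n + 1 → y ≠ 0 →
    (∀ w ∈ v, w ≠ 0 ∧ w ≠ 1 ∧ w ∉ U ∧ NR y w) → v.Pairwise NR → y ∉ U → sg y ∉ U →
    U.card + 1 = 2 * v.length → XX v y U
  | 0, v, y, U, hn, hy, hv, hvp, hyU, hsU, hU => by
    obtain ⟨a, rfl⟩ := List.length_eq_one_iff.1 hn
    obtain ⟨z, rfl⟩ := Finset.card_eq_one.1 (show U.card = 1 by
      simp only [List.length_singleton] at hU; omega)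
    have hTT : ∀ a z : ℚ, TT [a] {z} = 1 := by
      intro a z
      simp [TT, st, e0]
    have hTT0 : ∀ a : ℚ, TT [a] ∅ = 0 := fun a => TT_card _ _ (by simp)
    have hyz : ¬ y = z := fun h => hyU (by simp [h])
    have h1 : ff [a] y {z} = 1 := by
      unfold ff sh
      have hp : ({z} : Finset ℚ).powerset = {∅, {z}} := by
        rfl
      rw [hp, Finset.sum_pair (by
        intro h
        have := congrArg Finset.card h
        simp at this), hTT0, hTT]
      simp [hTT]
    have hsz : sg y ∉ ({z} : Finset ℚ) := hsU
    have h2 : ZZ (insert (sg y) {z}) = 1 := by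
      have := ZZ_eq {sg y} {z} (by simpa using hsz) rfl
      rw [Finset.toList_singleton, hTT] at this
      exact this
    unfold XX
    rw [h1, h2]
    simp [CC]
  | n + 1, v, y, U, hn, hy, hv, hvp, hyU, hsU, hU => by
    have hnd : v.Nodup := hvp.imp (fun h => h.1)
    have hcv : v.toFinset.card = v.length := List.toFinset_card_of_nodup hnd
    have hpw : ∀ w ∈ v, ∀ w' ∈ v, w ≠ w' → NR w w' := fun w hw w' hw' hne =>
      hvp.forall hw hw' hne
    set E : Finset ℚ := insert y (insert (sg y) v.toFinset) with hE
    have hUE : ∀ U : Finset ℚ, Disjoint U E ↔ (y ∉ U ∧ sg y ∉ U ∧ ∀ w ∈ v, w ∉ U) := by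
      intro U
      rw [hE, Finset.disjoint_insert_right, Finset.disjoint_insert_right,
        Finset.disjoint_right]
      simp only [List.mem_toFinset]
    have main := interp v.toFinset v.length hcv (by omega) E ?_ ?_
      (fun U => ff v y U - CC v * y ^ (v.length - 1) * ZZ (insert (sg y) U)) ?_ ?_ U hU
      ((hUE U).2 ⟨hyU, hsU, fun w hw => (hv w hw).2.2.1⟩)
    · unfold XX
      linarith
    · intro w hw
      rw [List.mem_toFinset] at hw
      obtain ⟨hw0, hw1, _, hwy⟩ := hv w hw
      simp only [hE, Finset.mem_insert, List.mem_toFinset, not_or]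
      refine ⟨⟨hwy.2.1.symm, fun h => hwy.1 (sg_injective h).symm, fun h => ?_⟩,
        ⟨hwy.2.2.symm, fun h => ?_, fun h => ?_⟩⟩
      · by_cases he : w = sg w
        · exact sg_ne_self w hw0 he.symm
        · exact (hpw _ h w hw (fun h' => he h'.symm)).2.1 rfl
      · -- tt w = sg y
        apply hwy.2.1
        rw [← tt_sg y, ← h, tt_tt w hw0 hw1]
      · by_cases he : w = tt w
        · exact tt_ne_self w hw1 he.symm
        · exact (hpw _ h w hw (fun h' => he h'.symm)).2.2 rfl
    · intro w hw w' hw' h
      rw [List.mem_toFinset] at hw hw'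
      obtain ⟨hw0, hw1, _, _⟩ := hv w hw
      by_cases he : w = w'
      · subst he; exact tt_ne_sg w hw0 hw1 h
      · -- w' = tt (tt w) = sg w
        have h1 : w' = sg w := by rw [← tt_sg w', ← h, tt_tt w hw0 hw1]
        exact (hpw w' hw' w hw (Ne.symm he)).2.1 h1
    · intro V hV hVE
      obtain ⟨hyV, hsV, hvV⟩ := (hUE V).1 hVE
      obtain ⟨p, hp, hp'⟩ := ff_isPol v y V (by simpa using hyV)
      obtain ⟨q, hq, hq'⟩ := ZZ_pol (insert (sg y) V) v.length (by
        rw [Finset.card_insert_of_notMem hsV]; omega)
      refine ⟨p - (CC v * y ^ (v.length - 1)) • q, Submodule.sub_mem _ hp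
        (Submodule.smul_mem _ _ hq), fun z hz hzE => ?_⟩
      simp only [hE, Finset.mem_insert, not_or] at hzE
      beta_reduce
      rw [hp' z hz (by simpa using hzE.1), Finset.insert_comm, hq' z (by
        rw [Finset.mem_insert, not_or]; exact ⟨hzE.2.1, hz⟩), eval_sub, eval_smul, smul_eq_mul]
    · intro U hU hUE' w hw hsw htw
      obtain ⟨hyU, hsU, hvU⟩ := (hUE U).1 hUE'
      rw [List.mem_toFinset] at hw
      obtain ⟨hw0, hw1, _, hwy⟩ := hv w hw
      have hab : tt w ≠ sg w := tt_ne_sg w hw0 hw1
      set v' := v.erase w with hv'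
      have hperm : v.Perm (w :: v') := List.perm_cons_erase hw
      have hlen : v.length = v'.length + 1 := by
        rw [hperm.length_eq, List.length_cons]
      set U' := (U.erase (sg w)).erase (tt w) with hU'
      have hUU : U = insert (sg w) (insert (tt w) U') := by
        rw [hU', Finset.insert_erase (Finset.mem_erase.2 ⟨hab, htw⟩), Finset.insert_erase hsw]
      have hsU' : sg w ∉ U' := fun h => Finset.notMem_erase _ _ (Finset.mem_of_mem_erase h)
      have htU' : tt w ∉ U' := Finset.notMem_erase _ _
      have hsub : U' ⊆ U := (Finset.erase_subset _ _).trans (Finset.erase_subset _ _)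
      have hcU' : U.card = U'.card + 2 := by
        rw [hUU, Finset.card_insert_of_notMem (by
          rw [Finset.mem_insert, not_or]; exact ⟨hab.symm, hsU'⟩),
          Finset.card_insert_of_notMem htU']
      have ih := thmX n v' y U' (by omega) hy (fun x hx => by
          obtain ⟨h1, h2, h3, h4⟩ := hv x (List.mem_of_mem_erase hx)
          exact ⟨h1, h2, fun h => hvU x (List.mem_of_mem_erase hx) (hsub h), h4⟩)
        (hvp.sublist List.erase_sublist) (fun h => hyU (hsub h)) (fun h => hsU (hsub h))
        (by omega)
      have hXX : XX (w :: v') y U := by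
        unfold XX at ih ⊢
        conv_lhs => rw [hUU]
        rw [ff_pair w v' (fun h => by rw [h] at hlen; simp at hlen; omega) y U' hw0 hw1
          (fun h => hvU w hw (hsub h)) hsU' htU' (fun h => hyU (hsub h)) hwy.2.1 hwy.2.2, ih]
        have hyys : sg y ∉ U' := fun h => hsU (hsub h)
        have hR1 : insert (sg y) U = insert (sg w) (insert (sg (sg w)) (insert (sg y) U')) := by
          have hss : sg (sg w) = tt w := by
            rw [← tt_tt w hw0 hw1, sg_tt]
          rw [hss]
          conv_lhs => rw [hUU]
          rw [Finset.insert_comm (sg y), Finset.insert_comm (sg y)]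
        have hsw0 : sg w ≠ 0 := by
          intro h
          have h1 := tt_sg w
          rw [h] at h1
          apply hw1
          rw [← h1]
          norm_num [tt]
        have hss : sg (sg w) = tt w := by
          rw [← tt_tt w hw0 hw1, sg_tt]
        have hpz := ZZ_pair (sg w) (insert (sg y) U') (v'.length) hsw0
          (by rw [Finset.mem_insert, not_or]
              exact ⟨fun h => hwy.1 (sg_injective h).symm, hsU'⟩)
          (by rw [Finset.mem_insert, not_or, hss]
              refine ⟨fun h => ?_, htU'⟩
              apply hwy.2.1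
              rw [← tt_sg y, ← h, tt_tt w hw0 hw1])
          (by rw [Finset.card_insert_of_notMem hyys]; omega)
        rw [← hR1] at hpz
        have hl1 : (w :: v').length - 1 = v'.length := by simp
        rw [hl1]
        apply mul_left_cancel₀ (pow_ne_zero v'.length hsw0)
        have e1 : (sg w) ^ v'.length * (CC (w :: v') * y ^ v'.length * ZZ (insert (sg y) U)) =
            CC (w :: v') * y ^ v'.length *
              ((∏ r ∈ insert (sg y) U', hh r (sg w)) * ZZ (insert (sg y) U')) := by
          rw [← hpz]; ring
        rw [e1, CC, Finset.prod_insert hyys]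
        have hwl : (v'.map (fun x => hh w x * hh x w)).prod =
            w ^ v'.length * ((v'.map (fun x => hh w x)).prod *
              (v'.map (fun x => hh (sg w) x)).prod) := by
          have gen : ∀ l : List ℚ, (l.map (fun x => hh w x * hh x w)).prod =
            w ^ l.length * ((l.map (fun x => hh w x)).prod *
              (l.map (fun x => hh (sg w) x)).prod) := by
            intro l
            induction l with
            | nil => simp
            | cons x l ih =>
              simp only [List.map_cons, List.prod_cons, List.length_cons, pow_succ]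
              rw [ih]
              have : hh x w = w * hh (sg w) x := by
                unfold hh sg; field_simp; ring
              rw [this]; ring
          exact gen v'
        have hpu : ∏ u ∈ U', hh u (sg w) = (sg w) ^ U'.card * ∏ u ∈ U', hh (tt w) u := by
          rw [← Finset.prod_const, ← Finset.prod_mul_distrib]
          refine Finset.prod_congr rfl fun r _ => ?_
          rw [← hss]
          unfold hh
          have : sg (sg w) = 1 - 1 / sg w := rfl
          rw [this]
          field_simp
          ring
        have hc2 : U'.card = (v'.length - 1) + v'.length := by omega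
        have hyp : y ^ v'.length = y ^ (v'.length - 1) * y := by
          conv_lhs => rw [show v'.length = (v'.length - 1) + 1 by omega]
          rw [pow_succ]
        have hwp : w ^ v'.length = w ^ (v'.length - 1) * w := by
          conv_lhs => rw [show v'.length = (v'.length - 1) + 1 by omega]
          rw [pow_succ]
        have hwm : (w - 1) ^ (v'.length - 1) = w ^ (v'.length - 1) * (sg w) ^ (v'.length - 1) := by
          rw [← mul_pow]
          congr 1
          unfold sg; field_simp
        have hid : hh y w = w * (y * hh (sg y) (sg w)) := by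
          unfold hh sg; field_simp; ring
        rw [hwl, hpu, hc2, pow_add, hyp, hwp, hwm, hid]
        ring
      have := XX_perm hperm.symm hXX
      unfold XX at this
      rw [this, sub_self]

end Helper79
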